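import Pool.Agent.TH710.NU.Vojta

/-!
The exceptional set: Noetherian induction.
-/

set_option autoImplicit false

open FF Filter MvPolynomial Pool.Agent.W603.LV Pool.Agent.W603.PV Pool.Agent.W602.GT
  Pool.Agent.W603.GY Pool.Agent.W603.GX Pool.Agent.W603.GW Pool.Agent.W603.GR
  Pool.Agent.W603.CZ

namespace Pool.Agent.TH710.NU

section homog

variable {F : Type} [Field F] {n : ℕ}

/-- a minimal prime of a homogeneous ideal is homogeneous -/
theorem homog_min {J p : Ideal (MvPolynomial (Fin (n + 1)) F)} (hJ : IsHomog J)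
    (hp : p ∈ J.minimalPrimes) : IsHomog p := by
  classical
  have h1 : Ideal.span (Set.range fun x : {x : MvPolynomial (Fin (n + 1)) F × ℕ //
      x.1 ∈ J ∧ x.1.IsHomogeneous x.2} => x.1.1) = J := by
    apply le_antisymm
    · rw [Ideal.span_le]
      rintro _ ⟨x, rfl⟩
      exact x.2.1
    · intro H hH
      rw [← sum_homogeneousComponent H]
      exact sum_mem fun d _ => Ideal.subset_span
        ⟨⟨(homogeneousComponent d H, d), hJ H hH d, homogeneousComponent_isHomogeneous d H⟩, rfl⟩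
  refine isHomog_of_min (fun x : {x : MvPolynomial (Fin (n + 1)) F × ℕ //
      x.1 ∈ J ∧ x.1.IsHomogeneous x.2} => x.1.1) (e := fun x => x.1.2) (fun x => x.2.2) ?_
  rw [h1]
  exact hp

section gr

attribute [local instance] MvPolynomial.gradedAlgebra

theorem homog_span {ι : Type} {Fs : ι → MvPolynomial (Fin (n + 1)) F} {e : ι → ℕ}
    (he : ∀ i, (Fs i).IsHomogeneous (e i)) : IsHomog (Ideal.span (Set.range Fs)) := by
  have h1 : (Ideal.span (Set.range Fs)).IsHomogeneous
      (homogeneousSubmodule (Fin (n + 1)) F) := Ideal.homogeneous_span _ _ (by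
    rintro _ ⟨i, rfl⟩
    exact ⟨e i, he i⟩)
  intro H hH d
  have h2 := h1 d hH
  have h3 : ((DirectSum.decompose (homogeneousSubmodule (Fin (n + 1)) F) H) d :
      MvPolynomial (Fin (n + 1)) F) = homogeneousComponent d H :=
    decomposition.decompose'_apply H d
  rwa [h3] at h2

end gr

/-- a form in `p'` outside `p` -/
theorem exists_form {p p' : Ideal (MvPolynomial (Fin (n + 1)) F)} (hp' : IsHomog p')
    (h : ¬ p' ≤ p) : ∃ d H, MvPolynomial.IsHomogeneous H d ∧ H ∈ p' ∧ H ∉ p := by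
  classical
  obtain ⟨H, hH, hHp⟩ := SetLike.not_le_iff_exists.1 h
  by_contra hcon
  push Not at hcon
  apply hHp
  rw [← sum_homogeneousComponent H]
  exact sum_mem fun d _ => hcon d _ (homogeneousComponent_isHomogeneous d H) (hp' H hH d)

/-- a form which vanishes on the other components -/
theorem exists_sep {J p : Ideal (MvPolynomial (Fin (n + 1)) F)} (hJ : IsHomog J)
    (hp : p ∈ J.minimalPrimes) : ∃ d H, MvPolynomial.IsHomogeneous H d ∧ H ∉ p ∧
      ∀ p' ∈ J.minimalPrimes, p' ≠ p → H ∈ p' := by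
  classical
  have hpp : p.IsPrime := hp.1.1
  have hfin := J.finite_minimalPrimes_of_isNoetherianRing
  have h1 : ∀ p' : {p' // p' ∈ J.minimalPrimes ∧ p' ≠ p}, ∃ (d : ℕ)
      (H : MvPolynomial (Fin (n + 1)) F), H.IsHomogeneous d ∧ H ∈ p'.1 ∧ H ∉ p := by
    rintro ⟨p', hp', hne⟩
    refine exists_form (homog_min hJ hp') fun hle => hne ?_
    exact le_antisymm hle (hp.2 hp'.1 hle)
  choose d H hd hH hHp using h1
  have : Finite {p' // p' ∈ J.minimalPrimes ∧ p' ≠ p} :=
    (hfin.subset fun p' (h : p' ∈ J.minimalPrimes ∧ p' ≠ p) => h.1).to_subtype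
  have := Fintype.ofFinite {p' // p' ∈ J.minimalPrimes ∧ p' ≠ p}
  refine ⟨∑ p', d p', ∏ p', H p', IsHomogeneous.prod _ _ _ fun p' _ => hd p', fun h => ?_,
    fun p' hp' hne => ?_⟩
  · rw [Ideal.IsPrime.prod_mem_iff (hp := hpp)] at h
    obtain ⟨p', -, h2⟩ := h
    exact hHp p' h2
  · exact Ideal.mem_of_dvd _ (Finset.dvd_prod_of_mem _ (Finset.mem_univ
      (⟨p', hp', hne⟩ : {p' // p' ∈ J.minimalPrimes ∧ p' ≠ p}))) (hH ⟨p', hp', hne⟩)

theorem homog_sup {J : Ideal (MvPolynomial (Fin (n + 1)) F)} (hJ : IsHomog J) {d : ℕ}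
    {H : MvPolynomial (Fin (n + 1)) F} (hH : H.IsHomogeneous d) :
    IsHomog (J ⊔ Ideal.span {H}) := by
  classical
  intro G hG e
  obtain ⟨a, ha, b, hb, rfl⟩ := Submodule.mem_sup.1 hG
  obtain ⟨c, rfl⟩ := Ideal.mem_span_singleton'.1 hb
  rw [map_add]
  refine Submodule.add_mem_sup (hJ a ha e) (Ideal.mem_span_singleton'.2 ?_)
  by_cases hde : d ≤ e
  · refine ⟨homogeneousComponent (e - d) c, ?_⟩
    have h1 : c * H = ∑ i ∈ Finset.range (c.totalDegree + 1), homogeneousComponent i c * H := by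
      rw [← Finset.sum_mul, sum_homogeneousComponent]
    have h2 : ∀ i, (homogeneousComponent i c * H).IsHomogeneous (i + d) := fun i =>
      (homogeneousComponent_isHomogeneous i c).mul hH
    rw [h1, map_sum]
    rw [Finset.sum_congr rfl fun i _ => homogeneousComponent_of_mem (h2 i)]
    by_cases h3 : e - d ∈ Finset.range (c.totalDegree + 1)
    · rw [Finset.sum_eq_single_of_mem (e - d) h3]
      · rw [if_pos (by omega)]
      · intro i _ hi
        rw [if_neg (by omega)]
    · rw [Finset.sum_eq_zero, homogeneousComponent_eq_zero _ _ (by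
        rw [Finset.mem_range] at h3
        omega), zero_mul]
      intro i hi
      rw [if_neg]
      intro h4
      apply h3
      have : i = e - d := by omega
      rwa [← this]
  · refine ⟨0, ?_⟩
    rw [zero_mul]
    symm
    have h1 : c * H = ∑ i ∈ Finset.range (c.totalDegree + 1), homogeneousComponent i c * H := by
      rw [← Finset.sum_mul, sum_homogeneousComponent]
    have h2 : ∀ i, (homogeneousComponent i c * H).IsHomogeneous (i + d) := fun i =>
      (homogeneousComponent_isHomogeneous i c).mul hH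
    rw [h1, map_sum]
    refine Finset.sum_eq_zero fun i _ => ?_
    rw [homogeneousComponent_of_mem (h2 i), if_neg (by omega)]

/-- **Noetherian induction** for the exceptional set. -/
theorem exists_exc {J0 : Ideal (MvPolynomial (Fin (n + 1)) F)} (hJ0 : IsHomog J0)
    (Ok : Ideal (MvPolynomial (Fin (n + 1)) F) → Prop) (h0 : Ok J0)
    (P : Ideal (MvPolynomial (Fin (n + 1)) F) → Prop)
    (step : ∀ J, IsHomog J → J0 ≤ J → Ok J → ∀ p ∈ J.minimalPrimes, ¬ P p →
      ∃ d G, MvPolynomial.IsHomogeneous G d ∧ G ∉ p ∧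
        ∀ e H, MvPolynomial.IsHomogeneous H e → H ∉ p →
          (∀ p' ∈ J.minimalPrimes, p' ≠ p → H ∈ p') → Ok (J ⊔ Ideal.span {G * H})) :
    ∃ J, IsHomog J ∧ J0 ≤ J ∧ Ok J ∧ ∀ p ∈ J.minimalPrimes, P p := by
  classical
  obtain ⟨J, ⟨hJh, hJ0J, hJ⟩, hmax⟩ := (wellFounded_gt
    (α := Ideal (MvPolynomial (Fin (n + 1)) F))).has_min {J : Ideal (MvPolynomial (Fin (n + 1)) F) | IsHomog J ∧ J0 ≤ J ∧ Ok J} ⟨J0, hJ0, le_rfl, h0⟩
  refine ⟨J, hJh, hJ0J, hJ, fun p hp => ?_⟩
  by_contra hcon
  have hpp : p.IsPrime := hp.1.1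
  obtain ⟨d, G, hG, hGp, hstep⟩ := step J hJh hJ0J hJ p hp hcon
  obtain ⟨e, H, hH, hHp, hHo⟩ := exists_sep hJh hp
  refine hmax (J ⊔ Ideal.span {G * H}) ⟨homog_sup hJh (hG.mul hH), hJ0J.trans le_sup_left,
    hstep e H hH hHp hHo⟩ (lt_of_le_of_ne le_sup_left fun h => ?_)
  have h1 : G * H ∈ J := by
    rw [h]
    exact Ideal.mem_sup_right (Ideal.mem_span_singleton_self _)
  rcases hpp.mem_or_mem (hp.1.2 h1) with h2 | h2
  · exact hGp h2
  · exact hHp h2

/-- a point of `V(J)` outside `H = 0` lies in the component `p` -/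
theorem mem_comp {J p : Ideal (MvPolynomial (Fin (n + 1)) F)}
    {H : MvPolynomial (Fin (n + 1)) F} (hHo : ∀ p' ∈ J.minimalPrimes, p' ≠ p → H ∈ p')
    {L : Type} [Field L] [Algebra F L] {f : Fin (n + 1) → L} (hf : ∀ G ∈ J, aeval f G = 0)
    (hH : aeval f H ≠ 0) : ∀ G ∈ p, aeval f G = 0 := by
  have hker : (RingHom.ker (aeval f : MvPolynomial (Fin (n + 1)) F →ₐ[F] L)).IsPrime :=
    RingHom.ker_isPrime _
  obtain ⟨p', hp', hle⟩ := Ideal.exists_minimalPrimes_le
    (I := J) (J := RingHom.ker (aeval f : MvPolynomial (Fin (n + 1)) F →ₐ[F] L))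
    (fun G hG => RingHom.mem_ker.2 (hf G hG))
  by_cases hne : p' = p
  · subst hne
    exact fun G hG => RingHom.mem_ker.1 (hle hG)
  · exact absurd (RingHom.mem_ker.1 (hle (hHo p' hp' hne))) hH

end homog

section main

variable {k F : Type} [Field k] [Field F] {n : ℕ} {ι κ : Type}

/-- a line through the generic point of a component is in the component -/
theorem line_of_in {Fs : ι → MvPolynomial (Fin (n + 1)) F} {Q : κ → MvPolynomial (Fin (n + 1)) F}
    {q : κ → ℕ} [CharZero F] (hF : ∀ i, ∃ d, (Fs i).IsHomogeneous d)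
    {p : Ideal (MvPolynomial (Fin (n + 1)) F)}
    (hmin : p ∈ (Ideal.span (Set.range Fs)).minimalPrimes) (h : HasLineIn p Fs Q q) :
    HasPuncturedLine p Q q := by
  classical
  obtain ⟨K, iK, iA, y, v, T, hmem, hgen, hyv, hl⟩ := h
  refine ⟨K, iK, iA, y, v, T, hmem, hgen, hyv, fun s t => ⟨fun H hH => ?_, (hl s t).2⟩⟩
  have hcK : CharZero K := charZero_of_injective_algebraMap (algebraMap F K).injective
  let φ : MvPolynomial (Fin (n + 1)) F →ₐ[F] MvPolynomial (Fin 2) K :=
    aeval fun l => C (y l) * X 0 + C (v l) * X 1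
  have hev : ∀ (c c' : K) (H : MvPolynomial (Fin (n + 1)) F),
      eval ![c, c'] (φ H) = aeval (fun l => c * y l + c' * v l) H := by
    intro c c' H
    induction H using MvPolynomial.induction_on with
    | C a =>
      simp only [φ, aeval_C]
      rw [MvPolynomial.algebraMap_apply, eval_C]
    | add p q hp hq => rw [map_add, map_add, map_add, hp, hq]
    | mul_X p s hp =>
      rw [map_mul, map_mul, map_mul, hp]
      congr 1
      simp only [φ, aeval_X, map_add, map_mul, eval_C, eval_X, Matrix.cons_val_zero,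
        Matrix.cons_val_one]
      ring
  have hker : (RingHom.ker φ).IsPrime := RingHom.ker_isPrime _
  have hspan : Ideal.span (Set.range Fs) ≤ RingHom.ker φ := by
    rw [Ideal.span_le]
    rintro _ ⟨i, rfl⟩
    refine RingHom.mem_ker.2 (MvPolynomial.funext fun x => ?_)
    have hx : x = ![x 0, x 1] := by
      funext i
      fin_cases i <;> rfl
    rw [map_zero, hx, hev]
    exact (hl _ _).1 i
  obtain ⟨p', hp', hle⟩ := Ideal.exists_minimalPrimes_le hspan
  choose e he using hF
  have hhom := isHomog_of_min Fs he hp'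
  have hpp : p' ≤ p := by
    intro H hH
    rw [← sum_homogeneousComponent H]
    refine sum_mem fun d _ => ?_
    by_contra hcon
    apply hgen d _ (homogeneousComponent_isHomogeneous d H) hcon
    have h1 := hle (hhom H hH d)
    have h2 := hev 1 0 (homogeneousComponent d H)
    rw [RingHom.mem_ker.1 h1, map_zero] at h2
    simp only [one_mul, zero_mul, add_zero] at h2
    exact h2.symm
  have hpp' : p ≤ p' := hmin.2 hp'.1 hpp
  rw [← hev, RingHom.mem_ker.1 (hle (hpp' hH)), map_zero]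

/-- **Vojta's height inequality** with the exceptional set -/
theorem vojta_exc [Algebra k F] [IsAlgClosed k] [CharZero k] [IsFF k F] [Finite κ]
    (Fs : ι → MvPolynomial (Fin (n + 1)) F) (hF : ∀ i, Tower (Fs i))
    (Q : κ → MvPolynomial (Fin (n + 1)) F) (q : κ → ℕ) (hQ : ∀ j, TowerLog (Q j) (q j)) :
    ∃ J : Ideal (MvPolynomial (Fin (n + 1)) F), IsHomog J ∧ Ideal.span (Set.range Fs) ≤ J ∧
      (∀ p ∈ J.minimalPrimes, (∃ j, X j ∉ p) → (∀ j, Q j ∉ p) → HasLineIn p Fs Q q) ∧
      ∃ (B C : ℕ), ∀ (L : Type) [Field L] [Algebra k L] [Algebra F L]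
      [IsScalarTower k F L] [FiniteDimensional F L] (f : Fin (n + 1) → L),
      (∀ i, aeval f (Fs i) = 0) → (∀ j, aeval f (Q j) ≠ 0) → (∃ H ∈ J, aeval f H ≠ 0) →
      (∃ j, f j ≠ 0) →
        pht k f ≤ B * (canDeg k L + (meetsAny (k := k) Q q f).ncard) +
          C * Module.finrank F L := by
  classical
  obtain ⟨tt, htt⟩ := IsFF.exists_transcendental (k := k) (K := F)
  obtain ⟨h0, hh0⟩ : ∃ h0 : ℕ, (h0 : ℤ) = hgt k tt :=
    ⟨(hgt k tt).toNat, Int.toNat_of_nonneg (hgt_nonneg tt)⟩
  -- the genus term is bounded below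
  have hcd : ∀ (L : Type) [Field L] [Algebra k L] [Algebra F L] [IsScalarTower k F L]
      [FiniteDimensional F L], 0 ≤ canDeg k L + 2 * h0 * Module.finrank F L := by
    intro L _ _ _ _ _
    have hL : IsFF k L := isFF_of_finite (F := F)
    have h1 := canDeg_ge (k := k) (K := L) (t := algebraMap F L tt)
      ((transcendental_algebraMap_iff (algebraMap F L).injective).2 htt)
    rw [hgt_algebraMap (k := k), ← hh0] at h1
    linarith
  choose e he using fun i => (hF i).hom
  have hJ0 : IsHomog (Ideal.span (Set.range Fs)) := homog_span he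
  let Ok : Ideal (MvPolynomial (Fin (n + 1)) F) → Prop := fun J =>
    ∃ (B C : ℕ), ∀ (L : Type) [Field L] [Algebra k L] [Algebra F L]
      [IsScalarTower k F L] [FiniteDimensional F L] (f : Fin (n + 1) → L),
      (∀ i, aeval f (Fs i) = 0) → (∀ j, aeval f (Q j) ≠ 0) → (∃ H ∈ J, aeval f H ≠ 0) →
      (∃ j, f j ≠ 0) →
        pht k f ≤ B * (canDeg k L + (meetsAny (k := k) Q q f).ncard) +
          C * Module.finrank F L
  obtain ⟨J, h1, h2, h3, h4⟩ := exists_exc hJ0 Ok ⟨0, 0, by
      intro L _ _ _ _ _ f hf _ hH _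
      obtain ⟨H, hH, hne⟩ := hH
      exfalso
      apply hne
      have h1 : Ideal.span (Set.range Fs) ≤
          RingHom.ker (aeval f : MvPolynomial (Fin (n + 1)) F →ₐ[F] L) := by
        rw [Ideal.span_le]
        rintro _ ⟨i, rfl⟩
        exact RingHom.mem_ker.2 (hf i)
      exact RingHom.mem_ker.1 (h1 hH)⟩
    (fun p => (∃ j, X j ∉ p) → (∀ j, Q j ∉ p) → HasLineIn p Fs Q q) (by
      intro J hJ hJ0J hOk p hp hP
      push Not at hP
      obtain ⟨hx, hQp, hline⟩ := hP
      have hpp : p.IsPrime := hp.1.1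
      obtain ⟨d, G, hG, hGp, -, B, C, hBC⟩ := vojta_gen (k := k) Fs hF Q q hQ p
        (fun i => hp.1.2 (hJ0J (Ideal.subset_span ⟨i, rfl⟩))) hx hQp hline
      refine ⟨d, G, hG, hGp, fun e H hH hHp hHo => ?_⟩
      obtain ⟨B', C', hBC'⟩ := hOk
      refine ⟨B + B', (C + 2 * h0 * B) + (C' + 2 * h0 * B'), ?_⟩
      intro L i1 i2 i3 i4 i5 f hf hQf hex hfne
      have hc := hcd L
      have hc' : (0 : ℤ) ≤ (meetsAny (k := k) Q q f).ncard := by positivity
      have hc'' : (0 : ℤ) ≤ Module.finrank F L := by positivity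
      have hcc : (0 : ℤ) ≤ C := by positivity
      have hcc' : (0 : ℤ) ≤ C' := by positivity
      have hb : (0 : ℤ) ≤ B := by positivity
      have hb' : (0 : ℤ) ≤ B' := by positivity
      have key1 := mul_nonneg hb (add_nonneg hc hc')
      have key2 := mul_nonneg hb' (add_nonneg hc hc')
      have key3 := mul_nonneg hcc hc''
      have key4 := mul_nonneg hcc' hc''
      have hh : (0 : ℤ) ≤ h0 := by positivity
      have key5 := mul_nonneg (mul_nonneg hh hb) hc''
      have key6 := mul_nonneg (mul_nonneg hh hb') hc''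
      push_cast
      by_cases hJf : ∃ H ∈ J, aeval f H ≠ 0
      · have h5 := hBC' L f hf hQf hJf hfne
        nlinarith
      · push Not at hJf
        obtain ⟨A, hA, hAne⟩ := hex
        obtain ⟨a, ha, b, hb0, rfl⟩ := Submodule.mem_sup.1 hA
        obtain ⟨c, rfl⟩ := Ideal.mem_span_singleton'.1 hb0
        rw [map_add, hJf a ha, zero_add, map_mul, map_mul] at hAne
        have h6 : aeval f G ≠ 0 := left_ne_zero_of_mul (right_ne_zero_of_mul hAne)
        have h7 : aeval f H ≠ 0 := right_ne_zero_of_mul (right_ne_zero_of_mul hAne)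
        have h5 := hBC L f (mem_comp hHo hJf h7) h6
        nlinarith)
  exact ⟨J, h1, h2, h4, h3⟩

end main

end Pool.Agent.TH710.NU
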