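import Pool.Agent.TH710.NU.Spec
import Pool.Agent.TH710.ND.Sp

/-!
The degrees of curves in quasi-projective varieties given by nested sums of few high powers of
linear forms, and log general type.
-/

set_option autoImplicit false

open FF MvPolynomial Pool.Agent.W603.LV Pool.Agent.W603.PV Pool.Agent.W603.GR
  Pool.Agent.W602.GT Pool.Agent.W603.GW Pool.Agent.W603.GX
  Pool.Agent.W603.GY Pool.Agent.TH710.ND

namespace Pool.Agent.TH710.NU

variable {k : Type} [Field k] {n : ℕ} {ι κ : Type}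

/-- The vector `f` of elements of the function field `L` is the vector of homogeneous coordinates
of a morphism to `X = {F_i = 0, Q_j ≠ 0}` from the smooth projective curve with function field `L`,
without the points in the finite set `S`. -/
def IsMapX (F : ι → MvPolynomial (Fin (n + 1)) k) (Q : κ → MvPolynomial (Fin (n + 1)) k)
    {L : Type} [Field L] [Algebra k L] (S : Finset (Place k L)) (f : Fin (n + 1) → L) : Prop :=
  (∃ t, f t ≠ 0) ∧ (∀ i, aeval f (F i) = 0) ∧ ∀ j, aeval f (Q j) ≠ 0 ∧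
    ∀ P ∉ S, P.ord (aeval f (Q j)) = (Q j).totalDegree * pord P f

/-- The vector `f` of elements of the function field `L` is the vector of homogeneous coordinates
of a morphism to the part of the closed subvariety with generic point `y` where all `Q_j` are not
zero, from the smooth projective curve with function field `L`, without the points in the finite
set `S`. -/
def IsMapV {K : Type} [Field K] [Algebra k K] (y : Fin (n + 1) → K)
    (Q : κ → MvPolynomial (Fin (n + 1)) k)
    {L : Type} [Field L] [Algebra k L] (S : Finset (Place k L)) (f : Fin (n + 1) → L) : Prop :=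
  (∃ t, f t ≠ 0) ∧
    (∀ G : MvPolynomial (Fin (n + 1)) k, IsForm G → val y G = 0 → aeval f G = 0) ∧
    ∀ j, aeval f (Q j) ≠ 0 ∧
    ∀ P ∉ S, P.ord (aeval f (Q j)) = (Q j).totalDegree * pord P f

/-- the zero and the pole of the coordinate on the projective line -/
noncomputable def zeroInf (k : Type) [Field k] [CharZero k] : Finset (Place k (RatFunc k)) :=
  (finite_support (k := k) (RatFunc.X : RatFunc k)).toFinset

/-- **Modulo a closed subset.** -/
theorem mod_tfae_k [IsAlgClosed k] [CharZero k] [Finite κ]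
    {F : ι → MvPolynomial (Fin (n + 1)) k} {Q : κ → MvPolynomial (Fin (n + 1)) k}
    (hF : ∀ i, Tower (F i)) (hQ : ∀ j, ∃ d, TowerLog (Q j) d)
    (A : Set (MvPolynomial (Fin (n + 1)) k)) :
    [∃ B : ℕ, ∀ (L : Type) [Field L] [Algebra k L] [IsFF k L] (S : Finset (Place k L))
        (f : Fin (n + 1) → L), IsMapX F Q S f → (∃ G ∈ A, aeval f G ≠ 0) →
          pht k f ≤ B * max (canDeg k L + S.card) 0,
      ∃ β : ℤ → ℤ, ∀ (L : Type) [Field L] [Algebra k L] [IsFF k L] (S : Finset (Place k L))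
        (f : Fin (n + 1) → L), IsMapX F Q S f → (∃ G ∈ A, aeval f G ≠ 0) →
          pht k f ≤ β (canDeg k L + S.card),
      ∀ (L : Type) [Field L] [Algebra k L] [IsFF k L] (S : Finset (Place k L)), ∃ B : ℤ,
        ∀ f : Fin (n + 1) → L, IsMapX F Q S f → (∃ G ∈ A, aeval f G ≠ 0) → pht k f ≤ B,
      ∃ B : ℤ, ∀ f : Fin (n + 1) → RatFunc k, IsMapX F Q (zeroInf k) f →
        (∃ G ∈ A, aeval f G ≠ 0) → pht k f ≤ B,
      ∀ x ∈ PtsQ F Q, PunctX F Q x → ∀ G ∈ A, val x G = 0].TFAE := by
  classical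
  choose d hd using hQ
  have hdeg : ∀ {L : Type} [Field L] [Algebra k L] (f : Fin (n + 1) → L),
      (∀ j, aeval f (Q j) ≠ 0) → ∀ j, (Q j).totalDegree = d j := by
    intro L _ _ f hf j
    refine (hd j).degree fun h0 => hf j ?_
    rw [h0, map_zero]
  tfae_have 1 → 2 := fun ⟨B, h⟩ => ⟨fun m => B * max m 0,
    fun L _ _ _ S f hf hG => h L S f hf hG⟩
  tfae_have 2 → 3 := fun ⟨β, h⟩ L _ _ _ S => ⟨_, fun f hf hG => h L S f hf hG⟩
  tfae_have 3 → 4 := fun h => h (RatFunc k) (zeroInf k)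
  tfae_have 4 → 5 := by
    rintro ⟨B, hB⟩ x hx hP G hG
    by_contra hne
    obtain ⟨f, h1, h2, h3, h4, h5, h6⟩ := unbounded_k hx.2.2 hP B
    exact absurd (hB f ⟨h1, h2, fun j => ⟨h3 j, h4 j⟩⟩ ⟨G, hG, h6 G hne⟩) (not_le.2 h5)
  tfae_have 5 → 1 := by
    intro h
    obtain ⟨B, hB⟩ := bound_of hF hd A (fun G hG K _ _ y hP hoff => by
      by_contra hne
      obtain ⟨x, h1, h2, h3, h4⟩ := spec_k hoff hP hne
      obtain ⟨v, T, ⟨i0, j0, hij⟩, hl1, hl2⟩ := h4
      refine h1 (h x ⟨?_, fun i => ?_, h2⟩ ⟨v, T, ⟨i0, j0, hij⟩, hl1, hl2⟩ G hG)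
      · intro h0
        apply hij
        rw [h0]
        simp
      · have h5 := hl1 1 0 i
        simpa using h5)
    refine ⟨B, fun L _ _ _ S f hf hG => hB L S f hf.1 hf.2.1 (fun j => (hf.2.2 j).1)
      (fun j P hP => ?_) hG⟩
    rw [← hdeg f (fun j => (hf.2.2 j).1) j]
    exact (hf.2.2 j).2 P hP
  tfae_finish

/-- the prime ideal of the closed subvariety with generic point `y` -/
noncomputable def idealOf {K : Type} [Field K] [Algebra k K] (y : Fin (n + 1) → K) :
    Ideal (MvPolynomial (Fin (n + 1)) k) :=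
  RingHom.ker (aeval (fun i => Polynomial.X * Polynomial.C (y i)) :
    MvPolynomial (Fin (n + 1)) k →ₐ[k] Polynomial K)

instance {K : Type} [Field K] [Algebra k K] (y : Fin (n + 1) → K) : (idealOf (k := k) y).IsPrime :=
  RingHom.ker_isPrime _

theorem aeval_mulX {K : Type} [Field K] [Algebra k K] (y : Fin (n + 1) → K) {d : ℕ}
    {G : MvPolynomial (Fin (n + 1)) k} (hG : G.IsHomogeneous d) :
    (aeval (fun i => Polynomial.X * Polynomial.C (y i)) G : Polynomial K) =
      Polynomial.X ^ d * Polynomial.C (val y G) := by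
  unfold Pool.Agent.W602.GT.val
  rw [aeval_def, aeval_def, eval₂_eq', eval₂_eq', map_sum, Finset.mul_sum]
  refine Finset.sum_congr rfl fun α hα => ?_
  have h2 : ∑ a, α a = d := by
    have := hG (mem_support_iff.1 hα)
    rw [← this, Finsupp.weight_apply, Finsupp.sum_fintype _ _ (by simp)]
    simp
  have h3 : ∏ a, (Polynomial.X * Polynomial.C (y a) : Polynomial K) ^ α a =
      Polynomial.X ^ d * Polynomial.C (∏ a, y a ^ α a) := by
    rw [← h2, ← Finset.prod_pow_eq_pow_sum, map_prod, ← Finset.prod_mul_distrib]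
    exact Finset.prod_congr rfl fun a _ => by rw [mul_pow, map_pow]
  have h4 : algebraMap k (Polynomial K) (coeff α G) =
      Polynomial.C (algebraMap k K (coeff α G)) := rfl
  rw [h3, h4, Polynomial.C_mul]
  ring

theorem mem_idealOf {K : Type} [Field K] [Algebra k K] {y : Fin (n + 1) → K}
    {G : MvPolynomial (Fin (n + 1)) k} (hG : IsForm G) :
    G ∈ idealOf (k := k) y ↔ val y G = 0 := by
  obtain ⟨d, hd⟩ := hG
  unfold idealOf
  rw [RingHom.mem_ker, aeval_mulX y hd, mul_eq_zero, Polynomial.C_eq_zero]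
  exact ⟨fun h => h.resolve_left (pow_ne_zero _ Polynomial.X_ne_zero), Or.inr⟩

theorem comp_of_idealOf {K : Type} [Field K] [Algebra k K] {y : Fin (n + 1) → K}
    {G : MvPolynomial (Fin (n + 1)) k} (hG : G ∈ idealOf (k := k) y) (d : ℕ) :
    val y (homogeneousComponent d G) = 0 := by
  unfold idealOf at hG
  rw [RingHom.mem_ker] at hG
  change aeval _ G = 0 at hG
  have h1 : (aeval (fun i => Polynomial.X * Polynomial.C (y i)) G : Polynomial K) =
      ∑ e ∈ Finset.range (G.totalDegree + 1),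
        Polynomial.X ^ e * Polynomial.C (val y (homogeneousComponent e G)) := by
    conv_lhs => rw [← sum_homogeneousComponent G, map_sum]
    exact Finset.sum_congr rfl fun e _ => aeval_mulX y (homogeneousComponent_isHomogeneous e G)
  rw [hG] at h1
  have h2 := congrArg (fun p => Polynomial.coeff p d) h1
  simp only [Polynomial.coeff_zero, Polynomial.finsetSum_coeff, Polynomial.coeff_X_pow_mul',
    Polynomial.coeff_C] at h2
  by_cases hd : d ∈ Finset.range (G.totalDegree + 1)
  · rw [Finset.sum_eq_single_of_mem d hd] at h2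
    · simpa using h2.symm
    · intro e _ hed
      by_cases hle : e ≤ d
      · rw [if_pos hle, if_neg (by omega)]
      · rw [if_neg hle]
  · rw [homogeneousComponent_eq_zero _ _ (by
      rw [Finset.mem_range] at hd
      omega)]
    unfold Pool.Agent.W602.GT.val
    exact map_zero _

/-- the linear degree bound for the curves in the closed subvariety with generic point `y`, outside
a proper closed subset -/
def LinBound {K : Type} [Field K] [Algebra k K] (y : Fin (n + 1) → K)
    (Q : κ → MvPolynomial (Fin (n + 1)) k) : Prop :=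
  ∃ G : MvPolynomial (Fin (n + 1)) k, IsForm G ∧ val y G ≠ 0 ∧ ∃ B : ℕ,
    ∀ (L : Type) [Field L] [Algebra k L] [IsFF k L] (S : Finset (Place k L))
      (f : Fin (n + 1) → L), IsMapV y Q S f → aeval f G ≠ 0 →
        pht k f ≤ B * max (canDeg k L + S.card) 0

/-- the degrees of the curves in the closed subvariety with generic point `y`, outside a proper
closed subset, are bounded by a function of the Euler characteristic -/
def EulerBound {K : Type} [Field K] [Algebra k K] (y : Fin (n + 1) → K)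
    (Q : κ → MvPolynomial (Fin (n + 1)) k) : Prop :=
  ∃ G : MvPolynomial (Fin (n + 1)) k, IsForm G ∧ val y G ≠ 0 ∧ ∃ β : ℤ → ℤ,
    ∀ (L : Type) [Field L] [Algebra k L] [IsFF k L] (S : Finset (Place k L))
      (f : Fin (n + 1) → L), IsMapV y Q S f → aeval f G ≠ 0 →
        pht k f ≤ β (canDeg k L + S.card)

/-- the degrees of the maps from each curve to the closed subvariety with generic point `y`, outside
a proper closed subset, are bounded -/
def EachBound {K : Type} [Field K] [Algebra k K] (y : Fin (n + 1) → K)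
    (Q : κ → MvPolynomial (Fin (n + 1)) k) : Prop :=
  ∃ G : MvPolynomial (Fin (n + 1)) k, IsForm G ∧ val y G ≠ 0 ∧
    ∀ (L : Type) [Field L] [Algebra k L] [IsFF k L] (S : Finset (Place k L)), ∃ B : ℤ,
      ∀ f : Fin (n + 1) → L, IsMapV y Q S f → aeval f G ≠ 0 → pht k f ≤ B

/-- the degrees of the maps from the multiplicative group to the closed subvariety with generic
point `y`, outside a proper closed subset, are bounded -/
def GmBound [CharZero k] {K : Type} [Field K] [Algebra k K] (y : Fin (n + 1) → K)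
    (Q : κ → MvPolynomial (Fin (n + 1)) k) : Prop :=
  ∃ G : MvPolynomial (Fin (n + 1)) k, IsForm G ∧ val y G ≠ 0 ∧ ∃ B : ℤ,
    ∀ f : Fin (n + 1) → RatFunc k, IsMapV y Q (zeroInf k) f → aeval f G ≠ 0 → pht k f ≤ B

/-- no line of maps -/
theorem no_punct_of_bound [IsAlgClosed k] [CharZero k] [Finite κ]
    {F : ι → MvPolynomial (Fin (n + 1)) k} {Q : κ → MvPolynomial (Fin (n + 1)) k}
    {K : Type} [Field K] [Algebra k K] {w : ℕ} {y : Fin (n + 1) → K} (hy : SubVarQ F Q K w y)
    (hcomp : IsComponentQ F Q y) (hB : GmBound y Q) {M : Type} [Field M] [Algebra k M]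
    {Y : Fin (n + 1) → M}
    (hspec : ∀ G : MvPolynomial (Fin (n + 1)) k, IsForm G → val Y G = 0 → val y G = 0)
    (hQf : ∀ j, IsForm (Q j)) (hP : PunctX F Q Y) : False := by
  obtain ⟨G, hG, hGy, B, hB⟩ := hB
  obtain ⟨H, hH, hHy, hcone⟩ := hcomp
  obtain ⟨x, h1, h2, h3, h4⟩ := spec_k (G := G * H)
    (fun j h0 => hy.off j (hspec _ (hQf j) h0)) hP (by
    rw [val_mul]
    exact mul_ne_zero (fun h0 => hGy (hspec _ hG h0)) (fun h0 => hHy (hspec _ hH h0)))
  rw [val_mul] at h1
  obtain ⟨f, g1, g2, g3, g4, g5, g6⟩ := unbounded_k h2 h4 B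
  refine absurd (hB f ⟨g1, fun G' hG' h0 => ?_, fun j => ⟨g3 j, g4 j⟩⟩
    (g6 G (left_ne_zero_of_mul h1))) (not_le.2 g5)
  refine in_comp hcone ?_ g2 g3 (g6 H (right_ne_zero_of_mul h1)) G' hG' h0
  intro h0
  obtain ⟨t, ht⟩ := g1
  exact ht (congrFun h0 t)

/-- **The degree bound**, if there are no punctured lines. -/
theorem lin_of_no_punct [IsAlgClosed k] [CharZero k] [Finite κ]
    {F : ι → MvPolynomial (Fin (n + 1)) k} {Q : κ → MvPolynomial (Fin (n + 1)) k}
    (hF : ∀ i, Tower (F i)) (hQ : ∀ j, ∃ d, TowerLog (Q j) d)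
    {K : Type} [Field K] [Algebra k K] {w : ℕ} {y : Fin (n + 1) → K} (hy : SubVarQ F Q K w y)
    (hno : ∀ (M : Type) [Field M] [Algebra k M] (Y : Fin (n + 1) → M),
      (∀ G : MvPolynomial (Fin (n + 1)) k, IsForm G → val Y G = 0 → val y G = 0) →
      ¬ PunctX F Q Y) : LinBound y Q := by
  classical
  choose d hd using hQ
  have hQne : ∀ j, Q j ≠ 0 := by
    intro j h0
    apply hy.off j
    rw [h0]
    unfold Pool.Agent.W602.GT.val
    rw [map_zero]
  have hdeg : ∀ j, (Q j).totalDegree = d j := fun j => (hd j).degree (hQne j)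
  have hQh : ∀ j, (Q j).IsHomogeneous (Q j).totalDegree := fun j => by
    rw [hdeg]
    exact (hd j).hom
  obtain ⟨e, G, hG, hGy, -, B, hB⟩ := const_gen F hF Q d hd (idealOf (k := k) y)
    (fun i => (mem_idealOf (hF i).hom).2 (hy.mem i)) (by
      obtain ⟨i0, hi0⟩ := Function.ne_iff.1 hy.ne
      refine ⟨i0, fun h => hi0 ?_⟩
      have h1 := (mem_idealOf ⟨1, isHomogeneous_X _ _⟩).1 h
      unfold Pool.Agent.W602.GT.val at h1
      rwa [aeval_X] at h1) (fun j h => hy.off j ((mem_idealOf ⟨_, hQh j⟩).1 h)) (by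
      rintro ⟨M, i1, i2, Y, v, T, h1, h2, h3, h4⟩
      refine hno M Y (fun G hG h0 => ?_) ?_
      · obtain ⟨e, he⟩ := hG
        by_contra hne
        exact h2 e G he (fun h => hne ((mem_idealOf ⟨e, he⟩).1 h)) h0
      · refine ⟨v, T, ?_, fun c c' i => (h4 c c').1 i, fun c c' j hj => ?_,
          fun c c' j hj => ?_⟩
        · exact h3
        · have h5 := ((h4 c c').2 j).1 hj
          rw [hdeg]
          exact h5
        · have h5 := ((h4 c c').2 j).2 hj
          rw [hdeg]
          exact h5)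
  refine ⟨G, ⟨e, hG⟩, fun h0 => hGy ((mem_idealOf ⟨e, hG⟩).2 h0), B,
    fun L _ _ _ S f hf hfG => ?_⟩
  obtain ⟨hf0, hfV, hfQ⟩ := hf
  refine (hB L f (fun H hH => ?_) hfG).trans ?_
  · rw [← sum_homogeneousComponent H, map_sum]
    exact Finset.sum_eq_zero fun d _ =>
      hfV _ ⟨d, homogeneousComponent_isHomogeneous d H⟩ (comp_of_idealOf hH d)
  · refine mul_le_mul_of_nonneg_left ?_ (by positivity)
    have hsub : Pool.Agent.W603.CZ.meetsAny (k := k) Q d f ⊆ (S : Set (Place k L)) := by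
      rintro P ⟨j, hj⟩
      by_contra hPS
      have h1 := (hfQ j).2 P (by simpa using hPS)
      rw [hdeg] at h1
      omega
    have h1 : ((Pool.Agent.W603.CZ.meetsAny (k := k) Q d f).ncard : ℤ) ≤ S.card := by
      have h2 := Set.ncard_le_ncard hsub S.finite_toSet
      rw [Set.ncard_coe_finset] at h2
      exact_mod_cast h2
    exact max_le_max (by linarith) le_rfl

/-- **The degree bounds for a component.** -/
theorem comp_bounds [IsAlgClosed k] [CharZero k] [Finite κ]
    {F : ι → MvPolynomial (Fin (n + 1)) k} {Q : κ → MvPolynomial (Fin (n + 1)) k}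
    (hF : ∀ i, Tower (F i)) (hQ : ∀ j, ∃ d, TowerLog (Q j) d)
    {K : Type} [Field K] [Algebra k K] {w : ℕ} {y : Fin (n + 1) → K} (hy : SubVarQ F Q K w y)
    (hcomp : IsComponentQ F Q y) :
    [LinBound y Q, EulerBound y Q, EachBound y Q, GmBound y Q,
      ∃ G : MvPolynomial (Fin (n + 1)) k, IsForm G ∧ val y G ≠ 0 ∧
        ∀ x ∈ VarPts k y, x ∈ PtsQ F Q → PunctX F Q x → val x G = 0].TFAE := by
  have hQf : ∀ j, IsForm (Q j) := fun j => by
    obtain ⟨d, hd⟩ := hQ j
    exact ⟨d, hd.hom⟩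
  tfae_have 1 → 2 := fun ⟨G, h1, h2, B, h⟩ => ⟨G, h1, h2, fun m => B * max m 0,
    fun L _ _ _ S f hf hG => h L S f hf hG⟩
  tfae_have 2 → 3 := fun ⟨G, h1, h2, β, h⟩ => ⟨G, h1, h2,
    fun L _ _ _ S => ⟨_, fun f hf hG => h L S f hf hG⟩⟩
  tfae_have 3 → 4 := fun ⟨G, h1, h2, h⟩ => ⟨G, h1, h2, h (RatFunc k) (zeroInf k)⟩
  tfae_have 4 → 1 := fun h => lin_of_no_punct hF hQ hy fun M _ _ Y hsp hP =>
    no_punct_of_bound hy hcomp h hsp hQf hP
  tfae_have 4 → 5 := by
    rintro ⟨G, hG, hGy, B, hB⟩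
    obtain ⟨H, hH, hHy, hcone⟩ := hcomp
    refine ⟨G * H, ?_, ?_, fun x hxV hx hP => ?_⟩
    · obtain ⟨a, ha⟩ := hG
      obtain ⟨b, hb⟩ := hH
      exact ⟨a + b, ha.mul hb⟩
    · rw [val_mul]
      exact mul_ne_zero hGy hHy
    · by_contra h1
      rw [val_mul] at h1
      obtain ⟨f, g1, g2, g3, g4, g5, g6⟩ := unbounded_k hx.2.2 hP B
      refine absurd (hB f ⟨g1, fun G' hG' h0 => ?_, fun j => ⟨g3 j, g4 j⟩⟩
        (g6 G (left_ne_zero_of_mul h1))) (not_le.2 g5)
      refine in_comp hcone ?_ g2 g3 (g6 H (right_ne_zero_of_mul h1)) G' hG' h0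
      intro h0
      obtain ⟨t, ht⟩ := g1
      exact ht (congrFun h0 t)
  tfae_have 5 → 1 := by
    rintro ⟨G, hG, hGy, hx⟩
    obtain ⟨H, hH, hHy, hcone⟩ := hcomp
    refine lin_of_no_punct hF hQ hy fun M _ _ Y hsp hP => ?_
    obtain ⟨x, h1, h2, h3, h4⟩ := spec_k (G := G * H)
      (fun j h0 => hy.off j (hsp _ (hQf j) h0)) hP (by
      rw [val_mul]
      exact mul_ne_zero (fun h0 => hGy (hsp _ hG h0)) (fun h0 => hHy (hsp _ hH h0)))
    rw [val_mul] at h1
    have hxX : x ∈ PtsQ F Q := by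
      obtain ⟨v, T, ⟨i0, j0, hij⟩, hl1, -⟩ := h4
      refine ⟨?_, fun i => ?_, h2⟩
      · intro h0
        apply hij
        rw [h0]
        simp
      · have h5 := hl1 1 0 i
        simpa using h5
    exact left_ne_zero_of_mul h1 (hx x (hcone x hxX (right_ne_zero_of_mul h1)) hxX h4)
  tfae_finish

/-- **Log general type implies the degree bound.** -/
theorem lin_of_lgt [IsAlgClosed k] [CharZero k] [Finite κ]
    {F : ι → MvPolynomial (Fin (n + 1)) k} {Q : κ → MvPolynomial (Fin (n + 1)) k}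
    (hF : ∀ i, Tower (F i)) (hQ : ∀ j, ∃ d, TowerLog (Q j) d)
    {K : Type} [Field K] [Algebra k K] {w : ℕ} {y : Fin (n + 1) → K} (hy : SubVarQ F Q K w y)
    (hcomp : IsComponentQ F Q y) (hL : LogGeneralType k K w (OffAny Q y)) : LinBound y Q := by
  refine lin_of_no_punct hF hQ hy fun M _ _ Y hsp hP => ?_
  refine not_lgt_of_line (fun j => ?_) hy hcomp (M := M) (Y := Y) hsp hP hL
  obtain ⟨d, hd⟩ := hQ j
  rw [hd.degree]
  · exact hd.hom
  · intro h0
    apply hy.off j
    rw [h0]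
    unfold Pool.Agent.W602.GT.val
    rw [map_zero]

/-- **Bounded maps from the multiplicative group imply log general type.** -/
theorem lgt_of_gm [IsAlgClosed k] [CharZero k] [Finite κ]
    {F : ι → MvPolynomial (Fin (n + 1)) k} {Q : κ → MvPolynomial (Fin (n + 1)) k} {s N h : ℕ}
    (hF : ∀ i, IsNested s N h (F i)) (hQ : ∀ j, IsNested s N h (Q j))
    (hN : (n + 1) * ((h + 1) * (2 * s + 1) ^ 5) ≤ N) (hQf : ∀ j, IsForm (Q j))
    {K : Type} [Field K] [Algebra k K] {w : ℕ} {y : Fin (n + 1) → K} (hy : SubVarQ F Q K w y)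
    (hcomp : IsComponentQ F Q y) (hB : GmBound y Q) : LogGeneralType k K w (OffAny Q y) := by
  obtain ⟨hNb, hN2, hN1⟩ := bnd_le hN
  have hm : MapQ F Q K w y := ⟨hy.ne, hy.mem, hy.off, by
    rw [hy.gen]
    infer_instance, hy.dim⟩
  rcases maps_lgt hF hQ hNb hm with hP | hK
  · exact (no_punct_of_bound hy hcomp hB (fun _ _ h => h) hQf hP).elim
  · exact lgt_of_kod hy.dim hK

end Pool.Agent.TH710.NU
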