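import Pool.Agent.TH710.NU.Affine
import Pool.Agent.TH710.ND.Proj
import Pool.Agent.W602.GT.Four
import Pool.Agent.W619.PQ.Curve

/-!
Notions of hyperbolicity for projective varieties given by nested sums of few high powers of linear
forms.
-/

set_option autoImplicit false

open FF MvPolynomial Pool.Agent.W603.LV Pool.Agent.W603.PV Pool.Agent.W603.GR
  Pool.Agent.W602.GT Pool.Agent.W603.GW Pool.Agent.W603.GX
  Pool.Agent.W603.GY Pool.Agent.TH710.ND Pool.Agent.W603.CX

namespace Pool.Agent.TH710.NU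

variable {k : Type} [Field k] {n : ℕ} {ι : Type}

theorem canDeg_ratFunc [IsAlgClosed k] [CharZero k] : canDeg k (RatFunc k) = -2 :=
  Pool.Agent.W619.PQ.canDeg_rational (x := (RatFunc.X : RatFunc k)) RatFunc.adjoin_X

/-- algebraically hyperbolic varieties do not contain images of the multiplicative group -/
theorem no_gm_of_hyp [IsAlgClosed k] [CharZero k] {F : ι → MvPolynomial (Fin (n + 1)) k} {A : ℕ}
    (h : AlgHyperbolic A F) (P : Fin (n + 1) → Polynomial k) : ¬ GmCurve F P := by
  intro hP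
  have hz : ∀ p : Polynomial k, (∀ t : k, t ≠ 0 → p.eval t = 0) → p = 0 := by
    intro p hp
    have h1 : Polynomial.X * p = 0 := by
      apply poly_zero_of_all
      intro c
      rw [Polynomial.eval_mul, Polynomial.eval_X]
      by_cases hc : c = 0
      · rw [hc, zero_mul]
      · rw [hp c hc, mul_zero]
    exact (mul_eq_zero.1 h1).resolve_left Polynomial.X_ne_zero
  have hPF : ∀ i, (aeval P (F i) : Polynomial k) = 0 := fun i => hz _ fun t ht => by
    rw [ev_aeval]
    exact hP.mem t ht i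
  obtain ⟨l, hl⟩ := Function.ne_iff.1 (hP.ne 1 one_ne_zero)
  have hl0 : P l ≠ 0 := by
    intro h0
    apply hl
    simp only [h0, Polynomial.eval_zero, Pi.zero_apply]
  obtain ⟨f, hf⟩ : ∃ f : Fin (n + 1) → RatFunc k,
    f = fun j => algebraMap (Polynomial k) (RatFunc k) (P j) := ⟨_, rfl⟩
  have hinj : Function.Injective (algebraMap (Polynomial k) (RatFunc k)) :=
    RatFunc.algebraMap_injective k
  have hfl : f l ≠ 0 := by
    rw [hf]
    exact (map_ne_zero_iff _ hinj).2 hl0
  have hfF : ∀ i, aeval f (F i) = 0 := by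
    intro i
    have h4 := MvPolynomial.comp_aeval_apply (f := P)
      (IsScalarTower.toAlgHom k (Polynomial k) (RatFunc k)) (F i)
    rw [hf]
    rw [hPF, map_zero] at h4
    exact h4.symm
  have h1 := h (RatFunc k) f ⟨l, hfl⟩ hfF
  rw [canDeg_ratFunc] at h1
  have h2 : pht k f ≤ 0 := by
    have : max (-2 : ℤ) 0 = 0 := rfl
    rw [this, mul_zero] at h1
    exact h1
  have hc : ∀ j, ∃ c : k, P j = Polynomial.C c * P l := by
    intro j
    by_cases hj : P j = 0
    · exact ⟨0, by rw [hj, map_zero, zero_mul]⟩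
    · have hfj : f j ≠ 0 := by
        rw [hf]
        exact (map_ne_zero_iff _ hinj).2 hj
      obtain ⟨c, hc⟩ := const_of_hgt ((hgt_le_pht f hfj hfl).trans h2)
      refine ⟨c, hinj ?_⟩
      rw [map_mul]
      rw [div_eq_iff hfl] at hc
      rw [hf] at hc
      have h5 : algebraMap (Polynomial k) (RatFunc k) (P j) =
        algebraMap k (RatFunc k) c * algebraMap (Polynomial k) (RatFunc k) (P l) := hc
      rw [h5]
      rfl
  choose c hc using hc
  obtain ⟨t, t', ht, ht', hli⟩ := hP.nonconst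
  have h3 := LinearIndependent.pair_iff.1 hli ((P l).eval t') (-(P l).eval t) (by
    funext j
    simp only [Pi.add_apply, Pi.smul_apply, smul_eq_mul, Pi.zero_apply]
    rw [hc j]
    simp only [Polynomial.eval_mul, Polynomial.eval_C]
    ring)
  apply hP.ne t' ht'
  funext j
  simp only [Pi.zero_apply]
  rw [hc j, Polynomial.eval_mul, h3.1, mul_zero]

/-- **Notions of hyperbolicity.** -/
theorem four_towers [IsAlgClosed k] [CharZero k] {F : ι → MvPolynomial (Fin (n + 1)) k}
    (hF : ∀ i, Tower (F i)) :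
    [∃ A : ℕ, AlgHyperbolic A F, BoundedOnCurves F, ∀ P, ¬ GmCurve F P,
      ¬ ContainsLine F].TFAE := by
  have key := mod_tfae_k (κ := Empty) (Q := Empty.elim) hF (fun j => j.elim) {1}
  have hone : ∀ {L : Type} [Field L] [Algebra k L] (f : Fin (n + 1) → L),
      ∃ G ∈ ({1} : Set (MvPolynomial (Fin (n + 1)) k)), aeval f G ≠ 0 := fun f =>
    ⟨1, rfl, by rw [map_one]; exact one_ne_zero⟩
  tfae_have 1 → 2 := by
    rintro ⟨A, hA⟩ K _ _ _
    exact ⟨_, fun f hf0 hf => hA K f hf0 hf⟩
  tfae_have 2 → 1 := by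
    intro h
    obtain ⟨B, hB⟩ := h (RatFunc k)
    have h1 : ∃ B : ℤ, ∀ f : Fin (n + 1) → RatFunc k,
        IsMapX F (Empty.elim : Empty → MvPolynomial (Fin (n + 1)) k) (zeroInf k) f →
        (∃ G ∈ ({1} : Set (MvPolynomial (Fin (n + 1)) k)), aeval f G ≠ 0) → pht k f ≤ B :=
      ⟨B, fun f hf _ => hB f hf.1 hf.2.1⟩
    obtain ⟨A, hA⟩ := (key.out 3 0).1 h1
    refine ⟨A, fun K _ _ _ f hf0 hf => ?_⟩
    have h2 := hA K ∅ f ⟨hf0, hf, fun j => j.elim⟩ (hone f)
    simpa using h2
  tfae_have 1 → 3 := fun ⟨A, hA⟩ P => no_gm_of_hyp hA P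
  tfae_have 3 → 4 := by
    rintro h ⟨x, v, ⟨j, l, hjl⟩, hl⟩
    obtain ⟨P, hP⟩ := gm_of_line (F := F) (a := x) (b := v) (by
      rw [LinearIndependent.pair_iff]
      intro c c' hcc
      have e1 := congrFun hcc j
      have e2 := congrFun hcc l
      simp only [Pi.add_apply, Pi.smul_apply, smul_eq_mul, Pi.zero_apply] at e1 e2
      have h1 : v j * x l - v l * x j ≠ 0 := sub_ne_zero.2 hjl
      have h2 : c * (v j * x l - v l * x j) = 0 := by
        linear_combination v j * e2 - v l * e1
      have h3 : c' * (v j * x l - v l * x j) = 0 := by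
        linear_combination x l * e1 - x j * e2
      exact ⟨(mul_eq_zero.1 h2).resolve_right h1, (mul_eq_zero.1 h3).resolve_right h1⟩)
      (fun e t => by
        rw [val_eval', one_smul]
        exact hl t e)
    exact h P hP
  tfae_have 4 → 1 := by
    intro h
    have h5 : ∀ x ∈ PtsQ F (Empty.elim : Empty → MvPolynomial (Fin (n + 1)) k),
        PunctX F (Empty.elim : Empty → MvPolynomial (Fin (n + 1)) k) x →
        ∀ G ∈ ({1} : Set (MvPolynomial (Fin (n + 1)) k)), val x G = 0 := by
      rintro x hx ⟨v, T, ⟨i, j, hij⟩, hl, -⟩ G hG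
      exfalso
      apply h
      refine ⟨x, v, ⟨j, i, fun h0 => hij ?_⟩, fun t e => ?_⟩
      · linear_combination h0
      · have h1 := hl 1 t e
        rw [val_eval'] at h1
        simpa only [one_mul] using h1
    obtain ⟨A, hA⟩ := (key.out 4 0).1 h5
    refine ⟨A, fun K _ _ _ f hf0 hf => ?_⟩
    have h2 := hA K ∅ f ⟨hf0, hf, fun j => j.elim⟩ (hone f)
    simpa using h2
  tfae_finish

end Pool.Agent.TH710.NU
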