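import Pool.Agent.TH710.NU.Const

/-!
Sequences of maps from curves of large degree give punctured lines.
-/

set_option autoImplicit false

open FF Filter MvPolynomial Pool.Agent.W603.LV Pool.Agent.W603.PV Pool.Agent.W602.GT
  Pool.Agent.W603.GY Pool.Agent.W603.GX Pool.Agent.W603.GW Pool.Agent.W603.GR
  Pool.Agent.W603.CZ

namespace Pool.Agent.TH710.NU

variable {k : Type} [Field k] {n : ℕ} {ι κ : Type}

theorem hgt_alg [IsAlgClosed k] [CharZero k] {L : Type} [Field L] [Algebra k L] [IsFF k L]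
    (c : k) : hgt k (algebraMap k L c) = 0 := by
  by_cases hc : c = 0
  · rw [hc, map_zero, hgt_zero]
  · rw [hgt_finset (k := k) (algebraMap k L c) ∅ (fun P h => absurd (P.ord_const hc) h)]
    rfl

/-- **Punctured lines.** A sequence of maps of large degree gives a punctured line over the
ultraproduct of the function fields. -/
theorem punct_seq [IsAlgClosed k] [CharZero k] [Finite κ]
    {F : ι → MvPolynomial (Fin (n + 1)) k}
    {Q : κ → MvPolynomial (Fin (n + 1)) k} {q : κ → ℕ} (hF : ∀ i, Tower (F i))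
    (hQ : ∀ j, TowerLog (Q j) (q j)) (L : ℕ → Type) [∀ i, Field (L i)]
    [∀ i, Algebra k (L i)] [∀ i, IsFF k (L i)] (S : ∀ i, Finset (Place k (L i)))
    (f : ∀ i, Fin (n + 1) → L i) (hf0 : ∀ i, ∃ t, f i t ≠ 0)
    (hfF : ∀ i e, aeval (f i) (F e) = 0) (hfQ : ∀ i j, aeval (f i) (Q j) ≠ 0)
    (hfS : ∀ i j, ∀ P ∉ S i, P.ord (aeval (f i) (Q j)) = q j * pord P (f i))
    (hht : ∀ i : ℕ, (i : ℤ) * max (canDeg k (L i) + (S i).card) 0 < pht k (f i)) :
    PunctX F Q (fun t => um (hyperfilter ℕ) (fun i => f i t)) ∧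
      ∀ j, val (fun t => um (hyperfilter ℕ) (fun i => f i t)) (Q j) ≠ 0 := by
  classical
  have hq0 : ∀ j, 0 < q j := fun j => (hQ j).pos
  have hQne : ∀ j, Q j ≠ 0 := by
    intro j h0
    apply hfQ 0 j
    rw [h0, map_zero]
  have hdeg : ∀ j, (Q j).totalDegree = q j := fun j => (hQ j).degree (hQne j)
  obtain ⟨χ, hχd⟩ : ∃ χ : ℕ → ℤ, χ = fun i => max (canDeg k (L i) + (S i).card) 0 := ⟨_, rfl⟩
  have hχ : ∀ i, 0 ≤ χ i := fun i => by rw [hχd]; exact le_max_right _ _
  have hS : ∀ᶠ i in (hyperfilter ℕ : Filter ℕ),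
      max (canDeg k (L i) + (S i).card) 0 ≤ (1 : ℕ) * χ i :=
    Eventually.of_forall fun i => by rw [hχd, Nat.cast_one, one_mul]
  have hFc : ∀ c : k, ∃ B : ℕ, ∀ i, hgt k (algebraMap k (L i) c) ≤ B * χ i := by
    intro c
    refine ⟨0, fun i => ?_⟩
    rw [Nat.cast_zero, zero_mul, hgt_alg]
  obtain ⟨E, hE⟩ : ∃ E : IntermediateField k (UL (hyperfilter ℕ) L),
      IsSmall (hyperfilter ℕ) k χ E :=
    ⟨small (hyperfilter ℕ) χ hχ hFc, hχ, fun a => mem_small (hyperfilter ℕ)⟩
  have hval : ∀ H : MvPolynomial (Fin (n + 1)) k, um (hyperfilter ℕ) (fun i => val (f i) H) =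
      val (fun t => um (hyperfilter ℕ) (fun i => f i t)) H :=
    fun H => um_val H fun t i => f i t
  have hFy : ∀ e, val (fun t => um (hyperfilter ℕ) (fun i => f i t)) (F e) = 0 := by
    intro e
    rw [← hval, um_zero_iff]
    exact Eventually.of_forall fun i => hfF i e
  have hQy : ∀ j, val (fun t => um (hyperfilter ℕ) (fun i => f i t)) (Q j) ≠ 0 := by
    intro j
    rw [← hval, um_ne_iff]
    exact Eventually.of_forall fun i => hfQ i j
  refine ⟨?_, hQy⟩
  obtain ⟨lq, hG, hlq⟩ := good_u (dsys S hE hS) hF hQ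
    (y := fun t => um (hyperfilter ℕ) (fun i => f i t)) hFy hQy (fun j => by
      refine ⟨fun i => val (f i) (Q j), fun _ => ∅, 0, hval (Q j),
        Eventually.of_forall fun i => by simp, Eventually.of_forall fun i P hP _ _ => ?_⟩
      have h1 : P.ord (val (f i) (Q j)) = q j * pord P (f i) := hfS i j P hP
      rw [h1]
      exact dvd_mul_right _ _)
  refine punct_u S hE hS hq0 hdeg f hf0 hG hlq hQy (fun j i P hP => hfS i j P hP) ?_
  intro B
  have h3 : ∀ᶠ i in (hyperfilter ℕ : Filter ℕ), B ≤ i :=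
    Nat.hyperfilter_le_atTop (eventually_ge_atTop _)
  filter_upwards [h3] with i hi
  have h1 : (B : ℤ) ≤ i := by exact_mod_cast hi
  refine lt_of_le_of_lt (mul_le_mul_of_nonneg_right h1 (hχ i)) ?_
  have h2 := hht i
  rw [hχd]
  exact h2

/-- **The degree bound** outside a set of points that contains the special points. -/
theorem bound_of [IsAlgClosed k] [CharZero k] [Finite κ]
    {F : ι → MvPolynomial (Fin (n + 1)) k}
    {Q : κ → MvPolynomial (Fin (n + 1)) k} {q : κ → ℕ} (hF : ∀ i, Tower (F i))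
    (hQ : ∀ j, TowerLog (Q j) (q j)) (A : Set (MvPolynomial (Fin (n + 1)) k))
    (hA : ∀ G ∈ A, ∀ (K : Type) [Field K] [Algebra k K] (y : Fin (n + 1) → K),
      PunctX F Q y → (∀ j, val y (Q j) ≠ 0) → val y G = 0) :
    ∃ B : ℕ, ∀ (L : Type) [Field L] [Algebra k L] [IsFF k L] (S : Finset (Place k L))
      (f : Fin (n + 1) → L), (∃ t, f t ≠ 0) → (∀ e, aeval f (F e) = 0) →
      (∀ j, aeval f (Q j) ≠ 0) →
      (∀ j, ∀ P ∉ S, P.ord (aeval f (Q j)) = q j * pord P f) → (∃ G ∈ A, aeval f G ≠ 0) →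
      pht k f ≤ B * max (canDeg k L + S.card) 0 := by
  classical
  by_contra hcon
  push Not at hcon
  choose L i1 i2 i3 S f hf0 hfF hfQ hfS hG hht using hcon
  choose G hG1 hG3 using hG
  obtain ⟨hP, hQy⟩ := punct_seq hF hQ L S f hf0 hfF hfQ hfS hht
  obtain ⟨s, hsA, hs⟩ := (Submodule.fg_span_iff_fg_span_finset_subset A).1
    (IsNoetherian.noetherian (Ideal.span A))
  have h1 : ∀ i, ∃ H ∈ s, aeval (f i) H ≠ 0 := by
    intro i
    by_contra hno
    push Not at hno
    apply hG3 i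
    have h2 : G i ∈ Ideal.span A := Ideal.subset_span (hG1 i)
    have h3 : Ideal.span A ≤ RingHom.ker (aeval (f i) :
        MvPolynomial (Fin (n + 1)) k →ₐ[k] L i) := by
      rw [show Ideal.span A = Ideal.span (s : Set (MvPolynomial (Fin (n + 1)) k)) from hs,
        Ideal.span_le]
      intro H hH
      exact RingHom.mem_ker.2 (hno H hH)
    exact RingHom.mem_ker.1 (h3 h2)
  have h4 : ∃ H ∈ s, val (fun t => um (hyperfilter ℕ) (fun i => f i t)) H ≠ 0 := by
    by_contra hno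
    push Not at hno
    have h5 : ∀ᶠ i in (hyperfilter ℕ : Filter ℕ), ∀ H ∈ s, aeval (f i) H = 0 := by
      rw [eventually_all_finset]
      intro H hH
      have h6 := hno H hH
      have h7 := um_val (𝒰 := hyperfilter ℕ) H fun t i => f i t
      rw [← h7, um_zero_iff] at h6
      exact h6
    obtain ⟨i, hi⟩ := h5.exists
    obtain ⟨H, hH, hne⟩ := h1 i
    exact hne (hi H hH)
  obtain ⟨H, hH, hne⟩ := h4
  exact hne (hA H (hsA hH) _ _ hP hQy)

end Pool.Agent.TH710.NU
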