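import Pool.Agent.TH710.NU.Sys

/-!
Linear spaces through a point of a variety given by nested sums of few high powers of linear forms.
-/

set_option autoImplicit false

open FF MvPolynomial Pool.Agent.W603.LV Pool.Agent.W603.GR Pool.Agent.W603.GW
  Pool.Agent.W602.GT Pool.Agent.W603.GX Pool.Agent.W603.GY Pool.Agent.TH710.ND

namespace Pool.Agent.TH710.NU

variable {F : Type} [Field F] {n : ℕ} {ι κ : Type}

/-- `G` is a nested sum of few high powers of linear forms: `G = ∑ c_i g_i ^ e` with `s` summands,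
`(s - 1) ^ 2 ≤ e`, where the `g_i` are all linear forms, or all sums of `k` terms `c h ^ e'` with
`(2 k - 1) ^ 2 ≤ e'`, and so on: `L` is the list of the pairs `(k, e')` of the levels. -/
def Tower (G : MvPolynomial (Fin (n + 1)) F) : Prop :=
  ∃ (s e : ℕ) (L : List (ℕ × ℕ)) (c : Fin s → F) (g : Fin s → MvPolynomial (Fin (n + 1)) F),
    0 < e ∧ (s - 1) ^ 2 ≤ e ∧ GoodL L ∧ (∀ i, GateL IsLin L (g i)) ∧ G = ∑ i, C (c i) * g i ^ e

/-- `G` is a nested sum of few high powers of linear forms, of degree `d`, with the slightly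
stronger condition `s ^ 2 ≤ e` for the number `s` of the outermost summands. -/
def TowerLog (G : MvPolynomial (Fin (n + 1)) F) (d : ℕ) : Prop :=
  ∃ (s e : ℕ) (L : List (ℕ × ℕ)) (c : Fin s → F) (g : Fin s → MvPolynomial (Fin (n + 1)) F),
    0 < e ∧ s ^ 2 ≤ e ∧ GoodL L ∧ (∀ i, GateL IsLin L (g i)) ∧ G = ∑ i, C (c i) * g i ^ e ∧
      d = e * (L.map Prod.snd).prod

theorem Tower.hom {G : MvPolynomial (Fin (n + 1)) F} (h : Tower G) : ∃ d, G.IsHomogeneous d := by
  obtain ⟨s, e, L, c, g, -, -, -, hg, rfl⟩ := h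
  exact ⟨_, gate_hom (L := (s, e) :: L) ⟨c, g, hg, rfl⟩⟩

theorem TowerLog.hom {G : MvPolynomial (Fin (n + 1)) F} {d : ℕ} (h : TowerLog G d) :
    G.IsHomogeneous d := by
  obtain ⟨s, e, L, c, g, -, -, -, hg, rfl, rfl⟩ := h
  have h1 := gate_hom (L := (s, e) :: L) ⟨c, g, hg, rfl⟩
  rwa [List.map_cons, List.prod_cons] at h1

theorem GoodL.prod_pos {L : List (ℕ × ℕ)} (h : GoodL L) : 0 < (L.map Prod.snd).prod := by
  induction L with
  | nil => simp
  | cons ke L ih =>
    rw [List.map_cons, List.prod_cons]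
    exact Nat.mul_pos h.head.1 (ih h.tail)

theorem TowerLog.pos {G : MvPolynomial (Fin (n + 1)) F} {d : ℕ} (h : TowerLog G d) : 0 < d := by
  obtain ⟨s, e, L, c, g, he, -, hL, -, -, rfl⟩ := h
  exact Nat.mul_pos he hL.prod_pos

theorem TowerLog.degree {G : MvPolynomial (Fin (n + 1)) F} {d : ℕ} (h : TowerLog G d)
    (h0 : G ≠ 0) : G.totalDegree = d := h.hom.totalDegree h0

variable {K : Type} [Field K] [Algebra F K] {E : IntermediateField F K} {Dv : ℕ → K → Prop}

/-- **The linear spaces.** -/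
theorem good_u (h : DSys E Dv) {Fs : ι → MvPolynomial (Fin (n + 1)) F}
    {Q : κ → MvPolynomial (Fin (n + 1)) F} {q : κ → ℕ} (hF : ∀ i, Tower (Fs i))
    (hQ : ∀ j, TowerLog (Q j) (q j)) {y : Fin (n + 1) → K} (hmem : ∀ i, val y (Fs i) = 0)
    (hoff : ∀ j, val y (Q j) ≠ 0) (hQD : ∀ j, Dv (q j) (val y (Q j))) :
    ∃ lq, Good Fs Q y (PrC E y) lq ∧
      ∀ j, lin (lq j) y ^ (Q j).totalDegree / val y (Q j) ∈ E := by
  classical
  -- the leaves of the boundary forms
  have hleaf : ∀ j, ∃ l : Fin (n + 1) → F, lin l y ≠ 0 ∧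
      lin l y ^ (Q j).totalDegree / val y (Q j) ∈ E ∧
      ∀ (M : Type) [Field M] [Algebra F M] [Algebra K M] [IsScalarTower F K M]
        (x : Fin (n + 1) → M), InV (PrC E y) y x → val x (Q j) =
          algebraMap K M (val y (Q j) / lin l y ^ (Q j).totalDegree) *
            lin l x ^ (Q j).totalDegree := by
    intro j
    have hQ0 : Q j ≠ 0 := by
      intro h0
      apply hoff j
      rw [h0]
      unfold Pool.Agent.W602.GT.val
      rw [map_zero]
    have hdeg0 : (Q j).totalDegree = q j := (hQ j).degree hQ0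
    obtain ⟨s, e, L, c, g, he0, hse, hL, hg, hQe, hqe⟩ := hQ j
    have hgate : GateL IsLin ((s, e) :: L) (Q j) := ⟨c, g, hg, hQe⟩
    have hdeg : (Q j).totalDegree = (((s, e) :: L).map Prod.snd).prod := by
      rw [hdeg0, hqe, List.map_cons, List.prod_cons]
    have hcond : ∀ ke ∈ (s, e) :: L, 0 < ke.2 ∧ ke.1 ^ 2 ≤ ke.2 := by
      intro ke hke
      rcases List.mem_cons.1 hke with rfl | hke
      · exact ⟨he0, hse⟩
      · exact hL.wk ke hke
    have hord : Dv (((s, e) :: L).map Prod.snd).prod (aeval y (Q j)) := by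
      rw [← hdeg, hdeg0]
      exact hQD j
    obtain ⟨l, ⟨a, rfl⟩, hl0, hlW⟩ := exists_leaf h ((s, e) :: L) hcond (Q j) hgate (hoff j) hord
    refine ⟨a, by rwa [aeval_lin] at hl0, by rw [hdeg]; rwa [aeval_lin] at hlW, ?_⟩
    intro M _ _ _ _ x hx
    have h1 := gate_bd h (env_of_inV hx) ⟨a, rfl⟩ hl0 ((s, e) :: L) hcond
      (by rw [List.tail_cons]; exact hL) (Q j) hgate (hoff j) hord hlW
    rw [aeval_lin, aeval_lin, ← hdeg] at h1
    exact h1
  choose lq hlq0 hlqW hlqv using hleaf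
  refine ⟨lq, ⟨fun p hp => ⟨hp.1, hp.2.1⟩, ?_, hlq0, fun M _ _ _ _ x hx j => hlqv j M x hx⟩,
    hlqW⟩
  intro M _ _ _ _ x hx i
  obtain ⟨s, e, L, c, g, he0, hse, hL, hg, hFe⟩ := hF i
  have hE := env_of_inV hx
  obtain ⟨ihz, ihp⟩ := gate_rel h hE L hL
  have h1 := pow_step h (x := x) he0 (fun i => algebraMap F K (c i))
    (fun i => E.algebraMap_mem _) g (by
      have h2 := hmem i
      unfold Pool.Agent.W602.GT.val at h2
      rw [hFe, aeval_sum_pow] at h2
      exact h2) (by rw [Fintype.card_fin]; exact hse) (fun j hj => ihz (g j) (hg j) hj)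
    (fun i j hi hj hl => ihp (g i) (g j) (hg i) (hg j) hi hj hl)
  simp only [← IsScalarTower.algebraMap_apply] at h1
  unfold Pool.Agent.W602.GT.val
  rw [hFe, aeval_sum_pow]
  exact h1

end Pool.Agent.TH710.NU
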