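import Pool.Agent.TH710.NU.Sys
import Pool.Agent.W603.CZ.Blocks

/-!
Divisibility of the orders up to small sets of places, over an ultraproduct of function fields.
-/

set_option autoImplicit false

open FF Filter Pool.Agent.W603.LV Pool.Agent.W603.PV Pool.Agent.W603.CZ

namespace Pool.Agent.TH710.NU

variable {I : Type} (𝒰 : Ultrafilter I) {k F : Type} [Field k] [Field F] {L : I → Type}
  [∀ i, Field (L i)] [∀ i, Algebra k (L i)] [∀ i, Algebra F (L i)] [IsAlgClosed k] [CharZero k]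
  [∀ i, IsFF k (L i)]

omit [IsAlgClosed k] [CharZero k] [∀ i, IsFF k (L i)] in
/-- The orders of `z` outside `S0` are divisible by `e`, up to few places. -/
def Dv (χ : I → ℤ) (S0 : ∀ i, Finset (Place k (L i))) (e : ℕ) (z : UL 𝒰 L) : Prop :=
  ∃ (a : ∀ i, L i) (T : ∀ i, Finset (Place k (L i))) (B : ℕ), um 𝒰 a = z ∧
    (∀ᶠ i in (𝒰 : Filter I), ((T i).card : ℤ) ≤ B * χ i) ∧
    ∀ᶠ i in (𝒰 : Filter I), ∀ P, P ∉ S0 i → P ∉ T i → a i ≠ 0 → (e : ℤ) ∣ P.ord (a i)

variable {𝒰}

/-- **The system.** -/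
theorem dsys (S0 : ∀ i, Finset (Place k (L i))) {χ : I → ℤ}
    {E : IntermediateField F (UL 𝒰 L)} (hE : IsSmall 𝒰 k χ E) {B0 : ℕ}
    (hS : ∀ᶠ i in (𝒰 : Filter I), max (canDeg k (L i) + (S0 i).card) 0 ≤ B0 * χ i) :
    DSys E (Dv 𝒰 χ S0) := by
  classical
  refine ⟨fun z d hd h => hE.root z d hd h, ?_, ?_, ?_, ?_, ?_, ?_⟩
  · intro e z hz
    obtain ⟨a, rfl⟩ := um_surj 𝒰 z
    obtain ⟨B, hB⟩ := (hE.2 a).1 hz
    choose T hT hTc using fun i => Pool.Agent.W603.CY.card_supp (k := k) (K := L i) (fun _ : Unit => a i)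
    refine ⟨a, T, 2 * B, rfl, ?_, Eventually.of_forall fun i P _ hP _ => ?_⟩
    · filter_upwards [hB] with i hi
      have h1 := hTc i
      rw [Finset.univ_unique, Finset.sum_singleton] at h1
      refine h1.trans ?_
      push_cast
      linarith
    · rw [hT i P hP ()]
      exact dvd_zero _
  · intro e z
    obtain ⟨a, rfl⟩ := um_surj 𝒰 z
    refine ⟨fun i => a i ^ e, fun _ => ∅, 0, um_pow 𝒰 a e, Eventually.of_forall fun i => by simp,
      Eventually.of_forall fun i P _ _ _ => ?_⟩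
    rw [P.ord_pow]
    exact dvd_mul_right _ _
  · rintro e _ _ ⟨a, T, B, rfl, hT, ha⟩ ⟨b, T', B', rfl, hT', hb⟩
    refine ⟨fun i => a i * b i, fun i => T i ∪ T' i, B + B', um_mul 𝒰 a b, ?_, ?_⟩
    · filter_upwards [hT, hT'] with i h1 h2
      have h3 : ((T i ∪ T' i).card : ℤ) ≤ (T i).card + (T' i).card := by
        exact_mod_cast Finset.card_union_le _ _
      push_cast
      linarith
    · filter_upwards [ha, hb] with i h1 h2 P hP0 hP hne
      rw [Finset.mem_union, not_or] at hP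
      rw [P.ord_mul (left_ne_zero_of_mul hne) (right_ne_zero_of_mul hne)]
      exact dvd_add (h1 P hP0 hP.1 (left_ne_zero_of_mul hne))
        (h2 P hP0 hP.2 (right_ne_zero_of_mul hne))
  · rintro e m _ ⟨a, T, B, rfl, hT, ha⟩
    refine ⟨a, T, B, rfl, hT, ?_⟩
    filter_upwards [ha] with i h1 P hP0 hP hne
    refine dvd_trans ?_ (h1 P hP0 hP hne)
    push_cast
    exact dvd_mul_right _ _
  · rintro e m z he ⟨a, T, B, haz, hT, ha⟩
    obtain ⟨b, rfl⟩ := um_surj 𝒰 z
    rw [← um_pow, um_eq] at haz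
    refine ⟨b, T, B, rfl, hT, ?_⟩
    filter_upwards [ha, haz] with i h1 h2 P hP0 hP hne
    have h3 := h1 P hP0 hP (by rw [h2]; exact pow_ne_zero _ hne)
    rw [h2, P.ord_pow] at h3
    push_cast at h3
    exact (mul_dvd_mul_iff_left (by exact_mod_cast he.ne')).1 h3
  · intro e he J _ T hTm hsum hcard j0 hj0 A hA
    have h1 : ∀ j, ∃ (a : ∀ i, L i) (T' : ∀ i, Finset (Place k (L i))) (B : ℕ), um 𝒰 a = T j ∧
        (∀ᶠ i in (𝒰 : Filter I), ((T' i).card : ℤ) ≤ B * χ i) ∧
        ∀ᶠ i in (𝒰 : Filter I), ∀ P, P ∉ S0 i → P ∉ T' i → a i ≠ 0 →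
          (e : ℤ) ∣ P.ord (a i) := by
      intro j
      by_cases hj : T j = 0
      · refine ⟨fun _ => 0, fun _ => ∅, 0, ?_, Eventually.of_forall fun i => by simp,
          Eventually.of_forall fun i P _ _ h => absurd rfl h⟩
        rw [hj, um_zero_iff]
        exact Eventually.of_forall fun _ => rfl
      · exact hTm j hj
    choose g T' B hg hT' hgd using h1
    let S : ∀ i, Finset (Place k (L i)) := fun i => S0 i ∪ Finset.univ.biUnion fun j => T' j i
    have hS' : ∀ᶠ i in (𝒰 : Filter I), max (canDeg k (L i) + ((S i).card : ℤ)) 0 ≤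
        (B0 + ∑ j, B j : ℕ) * χ i := by
      filter_upwards [hS, eventually_all.2 hT'] with i h1 h2
      have h3 : ((S i).card : ℤ) ≤ (S0 i).card + ∑ j, ((T' j i).card : ℤ) := by
        have h4 : (S i).card ≤ (S0 i).card + ∑ j, (T' j i).card :=
          (Finset.card_union_le _ _).trans (Nat.add_le_add_left Finset.card_biUnion_le _)
        exact_mod_cast h4
      have h4 : ∑ j, ((T' j i).card : ℤ) ≤ ∑ j, (B j : ℤ) * χ i :=
        Finset.sum_le_sum fun j _ => h2 j
      have h5 : (0 : ℤ) ≤ ∑ j, ((T' j i).card : ℤ) := Finset.sum_nonneg fun j _ => by positivity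
      have h6 : ((B0 + ∑ j, B j : ℕ) : ℤ) * χ i = B0 * χ i + ∑ j, (B j : ℤ) * χ i := by
        push_cast
        rw [add_mul, Finset.sum_mul]
      have h8 := le_max_left (canDeg k (L i) + (S0 i).card) 0
      have h9 := le_max_right (canDeg k (L i) + (S0 i).card) 0
      rw [h6]
      apply max_le <;> linarith
    have h2 := ublocks0 S hE hS' (J := J) (s := Fintype.card J) (N := e) le_rfl he hcard g (by
      simp only [hg]
      exact hsum) (by
        filter_upwards [eventually_all.2 hgd] with i h3 P hP a b hga hgb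
        have h4 : ∀ j, g j i ≠ 0 → (e : ℤ) ∣ P.ord (g j i) := by
          intro j hj
          refine h3 j P (fun h => hP (Finset.mem_union_left _ h)) (fun h => hP
            (Finset.mem_union_right _ (Finset.mem_biUnion.2 ⟨j, Finset.mem_univ j, h⟩))) hj
        exact dvd_sub (h4 a hga) (h4 b hgb)) j0 (by rw [hg]; exact hj0) A (by
        intro j
        rw [hg, hg]
        exact hA j)
    rw [← h2]
    exact Finset.sum_congr rfl fun j _ => (hg j).symm

end Pool.Agent.TH710.NU
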