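import Pool.Agent.TH710.NU.Seq
import Pool.Agent.TH710.ND.LogK

/-!
Quasi-projective varieties covered by punctured lines are not of log general type, and receive maps
of unbounded degree from the multiplicative group.
-/

set_option autoImplicit false

open FF MvPolynomial Pool.Agent.W603.LV Pool.Agent.W603.PV Pool.Agent.W603.GR
  Pool.Agent.W602.GT Pool.Agent.W603.GW Pool.Agent.W603.GX
  Pool.Agent.W603.GY Pool.Agent.TH143.GT Pool.Agent.TH710.ND

namespace Pool.Agent.TH710.NU

variable {k : Type} [Field k]

section desc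

variable {N : ℕ}

theorem map_aeval' {R R' : Type} [CommRing R] [CommRing R'] [Algebra k R] [Algebra k R']
    (f : R →ₐ[k] R') (W : Fin (N + 1) → Polynomial R) (G : MvPolynomial (Fin (N + 1)) k) :
    (aeval W G).map (f : R →+* R') = aeval (fun j => (W j).map (f : R →+* R')) G := by
  have h4 := MvPolynomial.comp_aeval_apply (f := W) (Polynomial.mapAlgHom f) G
  exact h4

/-- descent of a family of curves to a finitely generated field of coefficients -/
theorem desc {R : Type} [CommRing R] [IsDomain R] [Algebra k R] (W : Fin (N + 1) → Polynomial R)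
    (g0 g1 Q : MvPolynomial (Fin (N + 1)) k)
    (hQ : ∃ (h : Polynomial R) (c : R) (l : ℕ), c ≠ 0 ∧
        aeval W Q * h = Polynomial.C c * Polynomial.X ^ l)
    (hg : Polynomial.derivative (aeval W g1) * aeval W g0 ≠
        aeval W g1 * Polynomial.derivative (aeval W g0)) :
    ∃ (M : Type) (_ : Field M) (_ : Algebra k M) (m : ℕ), Algebra.trdeg k M = m ∧
      ∃ W' : Fin (N + 1) → Polynomial M,
        (∀ G : MvPolynomial (Fin (N + 1)) k, aeval W' G = 0 ↔ aeval W G = 0) ∧
        (∃ (c : M) (l : ℕ), c ≠ 0 ∧ aeval W' Q = Polynomial.C c * Polynomial.X ^ l) ∧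
        Polynomial.derivative (aeval W' g1) * aeval W' g0 ≠
          aeval W' g1 * Polynomial.derivative (aeval W' g0) := by
  classical
  let E := FractionRing R
  let i : R →ₐ[k] E := IsScalarTower.toAlgHom k R E
  have hi : Function.Injective i := IsFractionRing.injective R E
  have hi' : Function.Injective (i : R →+* E) := hi
  let T : Finset E := Finset.univ.biUnion fun j => (W j).support.image fun n => i ((W j).coeff n)
  let M : IntermediateField k E := IntermediateField.adjoin k (T : Set E)
  have hess : Algebra.EssFiniteType k M :=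
    IntermediateField.essFiniteType_iff.2 ⟨T, rfl⟩
  have hlt := trdeg_lt_aleph0 k M
  obtain ⟨m, hm⟩ := Cardinal.lt_aleph0.1 hlt
  have hl : ∀ j, ∃ w : Polynomial M, w.map (M.val : M →+* E) = (W j).map (i : R →+* E) := by
    intro j
    have h1 : (W j).map (i : R →+* E) ∈ Polynomial.lifts (M.val : M →+* E) := by
      rw [Polynomial.lifts_iff_coeff_lifts]
      intro n
      rw [Polynomial.coeff_map]
      by_cases hn : (W j).coeff n = 0
      · rw [hn, map_zero]
        exact ⟨0, map_zero _⟩
      · have h2 : i ((W j).coeff n) ∈ M := by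
          apply IntermediateField.subset_adjoin
          simp only [T, Finset.coe_biUnion, Finset.mem_coe, Finset.mem_univ, Set.iUnion_true,
            Set.mem_iUnion, Finset.mem_image]
          exact ⟨j, n, Polynomial.mem_support_iff.2 hn, rfl⟩
        exact ⟨⟨_, h2⟩, rfl⟩
    exact (Polynomial.mem_lifts _).1 h1
  choose W' hW' using hl
  have hMinj : Function.Injective (M.val : M →+* E) := M.val.toRingHom.injective
  have hmap : ∀ G : MvPolynomial (Fin (N + 1)) k,
      (aeval W' G).map (M.val : M →+* E) = (aeval W G).map (i : R →+* E) := by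
    intro G
    rw [map_aeval', map_aeval']
    congr 1
    congr 1
    funext j
    exact hW' j
  refine ⟨M, inferInstance, inferInstance, m, hm, W', ?_, ?_, ?_⟩
  · intro G
    rw [← Polynomial.map_eq_zero_iff hMinj, hmap, Polynomial.map_eq_zero_iff hi']
  · obtain ⟨h, c, k', hc, hh⟩ := hQ
    have h1 : (aeval W' Q).map (M.val : M →+* E) * h.map (i : R →+* E) =
        Polynomial.C (i c) * Polynomial.X ^ k' := by
      rw [hmap, ← Polynomial.map_mul, hh, Polynomial.map_mul, Polynomial.map_C, Polynomial.map_pow,
        Polynomial.map_X]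
      rfl
    have hic : i c ≠ 0 := by
      rw [Ne, map_eq_zero_iff i hi]
      exact hc
    have h2 : (aeval W' Q).map (M.val : M →+* E) ∣ Polynomial.X ^ k' := by
      refine ⟨h.map (i : R →+* E) * Polynomial.C (i c)⁻¹, ?_⟩
      rw [← mul_assoc, h1, mul_comm, ← mul_assoc, ← Polynomial.C_mul, inv_mul_cancel₀ hic,
        Polynomial.C_1, one_mul]
    obtain ⟨l, hl, hass⟩ := (dvd_prime_pow Polynomial.prime_X k').1 h2
    obtain ⟨u, hu⟩ := hass.symm
    obtain ⟨u0, hu0, hu1⟩ := Polynomial.isUnit_iff.1 u.isUnit
    have h3 : (aeval W' Q).map (M.val : M →+* E) = Polynomial.C u0 * Polynomial.X ^ l := by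
      rw [← hu, ← hu1, mul_comm]
    have h4 : ((aeval W' Q).coeff l : E) = u0 := by
      have := congrArg (fun p => Polynomial.coeff p l) h3
      simpa [Polynomial.coeff_map] using this
    refine ⟨(aeval W' Q).coeff l, l, ?_, ?_⟩
    · intro h0
      rw [h0] at h4
      exact hu0.ne_zero h4.symm
    · apply Polynomial.map_injective _ hMinj
      rw [h3, Polynomial.map_mul, Polynomial.map_C, Polynomial.map_pow, Polynomial.map_X]
      congr 1
      congr 1
      exact h4.symm
  · intro h0
    apply hg
    apply Polynomial.map_injective (i : R →+* E) hi'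
    have h1 := congrArg (Polynomial.map (M.val : M →+* E)) h0
    rw [Polynomial.map_mul, Polynomial.map_mul, ← Polynomial.derivative_map,
      ← Polynomial.derivative_map, hmap, hmap] at h1
    rw [Polynomial.map_mul, Polynomial.map_mul, ← Polynomial.derivative_map,
      ← Polynomial.derivative_map]
    exact h1

end desc

variable {n : ℕ} {ι κ : Type}

theorem lgt_mono {K : Type} [Field K] [Algebra k K] {w : ℕ} {B B' : Place k K → Prop}
    (hB : ∀ P, B P → B' P) (h : LogGeneralType k K w B) : LogGeneralType k K w B' := by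
  obtain ⟨h1, N, hN, ω, h2, h3, h4, h5⟩ := h
  exact ⟨h1, N, hN, ω, h2, h3, fun P hP hb => h4 P hP fun hb' => hb (hB P hb'), h5⟩

/-- **Covered by punctured lines.** -/
theorem not_lgt_of_line [IsAlgClosed k] [CharZero k] [Finite κ]
    {F : ι → MvPolynomial (Fin (n + 1)) k} {Q : κ → MvPolynomial (Fin (n + 1)) k}
    (hQh : ∀ j, (Q j).IsHomogeneous (Q j).totalDegree)
    {K : Type} [Field K] [Algebra k K] {w : ℕ} {y : Fin (n + 1) → K} (hy : SubVarQ F Q K w y)
    (hcomp : IsComponentQ F Q y) {M : Type} [Field M] [Algebra k M] {Y : Fin (n + 1) → M}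
    (hspec : ∀ G : MvPolynomial (Fin (n + 1)) k, IsForm G → val Y G = 0 → val y G = 0)
    (hP : PunctX F Q Y) : ¬ LogGeneralType k K w (OffAny Q y) := by
  classical
  have := Fintype.ofFinite κ
  have hQf : ∀ j, IsForm (Q j) := fun j => ⟨_, hQh j⟩
  have hM : CharZero M := charZero_of_injective_algebraMap (algebraMap k M).injective
  have hinf : Infinite M := inferInstance
  obtain ⟨V, T, ⟨ia, ja, hij⟩, hT1, hT2, hT3⟩ := hP
  have hYQ : ∀ j, val Y (Q j) ≠ 0 := fun j h0 => hy.off j (hspec _ (hQf j) h0)
  let W : Fin (n + 1) → Polynomial M := fun t =>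
    Polynomial.C (Y t) + (Polynomial.X - 1) * Polynomial.C (V t)
  have hWev : ∀ (c : M), (fun t => (W t).eval c) = fun t => 1 * Y t + (c - 1) * V t := by
    intro c
    funext t
    simp only [W, Polynomial.eval_add, Polynomial.eval_mul, Polynomial.eval_C, Polynomial.eval_X,
      Polynomial.eval_sub, Polynomial.eval_one, one_mul]
  have hW1 : (fun t => (W t).eval 1) = Y := by
    rw [hWev]
    funext t
    rw [sub_self, zero_mul, add_zero, one_mul]
  have hWF : ∀ i, (aeval W (F i) : Polynomial M) = 0 := by
    intro i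
    apply poly_zero_of_all
    intro c
    rw [ev_aeval, hWev]
    exact hT1 _ _ i
  let e : κ → ℕ := fun j => if j ∈ T then (Q j).totalDegree else 0
  have hWQ : ∀ j, (aeval W (Q j) : Polynomial M) =
      Polynomial.C (val Y (Q j)) * Polynomial.X ^ e j := by
    intro j
    rw [← sub_eq_zero]
    apply poly_zero_of_all
    intro c
    rw [Polynomial.eval_sub, ev_aeval, hWev]
    simp only [Polynomial.eval_mul, Polynomial.eval_C, Polynomial.eval_pow, Polynomial.eval_X]
    rw [sub_eq_zero]
    simp only [e]
    by_cases hj : j ∈ T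
    · rw [if_pos hj, hT2 _ _ j hj]
      congr 2
      ring
    · rw [if_neg hj, hT3 _ _ j hj, one_pow, pow_zero]
  have hWQp : (aeval W (∏ j, Q j) : Polynomial M) =
      Polynomial.C (∏ j, val Y (Q j)) * Polynomial.X ^ (∑ j, e j) := by
    rw [map_prod, map_prod, ← Finset.prod_pow_eq_pow_sum, ← Finset.prod_mul_distrib]
    exact Finset.prod_congr rfl fun j _ => hWQ j
  -- genericity
  have hrelW : ∀ G : MvPolynomial (Fin (n + 1)) k, IsForm G →
      (val y G = 0 ↔ (aeval W G : Polynomial M) = 0) := by
    have hsp : ∀ G : MvPolynomial (Fin (n + 1)) k, IsForm G → (aeval W G : Polynomial M) = 0 →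
        val y G = 0 := by
      intro G hG h0
      apply hspec G hG
      have h1 := ev_aeval W G 1
      rw [h0, Polynomial.eval_zero, hW1] at h1
      exact h1.symm
    intro G hG
    have h1 := same_relQ (y' := fun j => rf (W j)) hcomp (by
        obtain ⟨i0, hi0'⟩ := Function.ne_iff.1 hy.ne
        have hi0 : y i0 ≠ 0 := hi0'
        intro h0
        apply hi0
        have h2 : rf (W i0) = 0 := congrFun h0 i0
        rw [rf_zero] at h2
        have h3 := hsp (X i0) ⟨1, isHomogeneous_X _ _⟩ (by rw [aeval_X]; exact h2)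
        unfold Pool.Agent.W602.GT.val at h3
        rwa [aeval_X] at h3)
      (fun i => by rw [val_rf, hWF, rf_zero]) hy.off hQf
      (fun G hG h0 => hsp G hG (by rwa [val_rf, rf_zero] at h0)) G hG
    rw [h1, val_rf, rf_zero]
  -- the curves are not constant
  have hder : Polynomial.derivative (aeval W (X ia : MvPolynomial (Fin (n + 1)) k) : Polynomial M) *
      aeval W (X ja : MvPolynomial (Fin (n + 1)) k) ≠
      aeval W (X ia : MvPolynomial (Fin (n + 1)) k) *
        Polynomial.derivative (aeval W (X ja : MvPolynomial (Fin (n + 1)) k) : Polynomial M) := by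
    rw [aeval_X, aeval_X]
    intro h0
    have hd : ∀ t, Polynomial.derivative (W t) = Polynomial.C (V t) := by
      intro t
      simp only [W, Polynomial.derivative_add, Polynomial.derivative_mul, Polynomial.derivative_X,
        Polynomial.derivative_C, Polynomial.derivative_sub, Polynomial.derivative_one]
      ring
    have h1 := congrArg (Polynomial.eval 1) h0
    rw [hd, hd, Polynomial.eval_mul, Polynomial.eval_mul] at h1
    simp only [W, Polynomial.eval_add, Polynomial.eval_mul, Polynomial.eval_sub,
      Polynomial.eval_C, Polynomial.eval_X, Polynomial.eval_one, sub_self, zero_mul,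
      add_zero] at h1
    apply hij
    linear_combination -h1
  obtain ⟨M', _, _, m', hm', W', hW', ⟨c, l, hc, hQW'⟩, hder'⟩ := desc W (X ja) (X ia) (∏ j, Q j)
    ⟨1, ∏ j, val Y (Q j), ∑ j, e j,
      Finset.prod_ne_zero_iff.2 fun j _ => hYQ j, by rw [mul_one, hWQp]⟩ hder
  have hrel' : ∀ G : MvPolynomial (Fin (n + 1)) k, IsForm G →
      (val y G = 0 ↔ (aeval W' G : Polynomial M') = 0) :=
    fun G hG => (hrelW G hG).trans (hW' G).symm
  have hFam : Fam y (∏ j, Q j) W' l := ⟨hrel', c, hc, hQW'⟩
  have hprod : (∏ j, Q j).IsHomogeneous (∑ j, (Q j).totalDegree) :=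
    IsHomogeneous.prod _ _ _ fun j _ => hQh j
  intro hL
  have hfl := (hFam.main hy.dim hm' hy.ne hy.gen hprod).2.2.1
    (lgt_mono (fun P hP => off_of_any hQh hy.off hP) hL)
    (val y (X ia : MvPolynomial (Fin (n + 1)) k) / val y (X ja : MvPolynomial (Fin (n + 1)) k))
  have hja : val y (X ja : MvPolynomial (Fin (n + 1)) k) ≠ 0 := by
    intro h0
    apply hder'
    have h1 := (hrel' _ ⟨1, isHomogeneous_X _ _⟩).1 h0
    rw [h1, mul_zero, Polynomial.derivative_zero, mul_zero]
  exact hder' (hfl 1 (X ia) (X ja) (isHomogeneous_X _ _) (isHomogeneous_X _ _) hja rfl)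

end Pool.Agent.TH710.NU
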