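import Pool.Agent.TH710.NU.Div
import Pool.Agent.TH710.NU.Good
import Pool.Agent.W603.CZ.Good

/-!
Families of points of large height give punctured lines over an ultraproduct of function fields.
-/

set_option autoImplicit false

open FF Filter MvPolynomial Pool.Agent.W603.LV Pool.Agent.W603.PV Pool.Agent.W602.GT
  Pool.Agent.W603.GY Pool.Agent.W603.GX Pool.Agent.W603.GW Pool.Agent.W603.GR
  Pool.Agent.W603.CZ

namespace Pool.Agent.TH710.NU

variable {I : Type} {𝒰 : Ultrafilter I} {k F : Type} [Field k] [Field F] {L : I → Type}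
  [∀ i, Field (L i)] [∀ i, Algebra k (L i)] [∀ i, Algebra F (L i)] [IsAlgClosed k] [CharZero k]
  [∀ i, IsFF k (L i)] {n : ℕ} {ι κ : Type}

/-- **Punctured lines.** -/
theorem punct_u [Finite κ] (S : ∀ i, Finset (Place k (L i))) {χ : I → ℤ}
    {E : IntermediateField F (UL 𝒰 L)} (hE : IsSmall 𝒰 k χ E) {B0 : ℕ}
    (hS : ∀ᶠ i in (𝒰 : Filter I), max (canDeg k (L i) + (S i).card) 0 ≤ B0 * χ i)
    {Fs : ι → MvPolynomial (Fin (n + 1)) F} {Q : κ → MvPolynomial (Fin (n + 1)) F}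
    {d' : κ → ℕ} (hd' : ∀ j, 0 < d' j) (hdeg : ∀ j, (Q j).totalDegree = d' j)
    (f : ∀ i, Fin (n + 1) → L i) (hne : ∀ i, ∃ t, f i t ≠ 0)
    {lq : κ → Fin (n + 1) → F}
    (hG : Good Fs Q (fun t => um 𝒰 (fun i => f i t)) (PrC E (fun t => um 𝒰 (fun i => f i t))) lq)
    (hlq : ∀ j, Pool.Agent.W602.GT.lin (lq j) (fun t => um 𝒰 (fun i => f i t)) ^
      (Q j).totalDegree / val (fun t => um 𝒰 (fun i => f i t)) (Q j) ∈ E)
    (hQf : ∀ j, val (fun t => um 𝒰 (fun i => f i t)) (Q j) ≠ 0)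
    (hQS : ∀ j i, ∀ P ∉ S i, P.ord (val (f i) (Q j)) = d' j * pord P (f i))
    (hht : ∀ B : ℕ, ∀ᶠ i in (𝒰 : Filter I), B * χ i < pht k (f i)) :
    PunctX Fs Q (fun t => um 𝒰 (fun i => f i t)) := by
  classical
  have := Fintype.ofFinite κ
  have hχ := hE.1
  obtain ⟨y, hy⟩ : ∃ y : Fin (n + 1) → UL 𝒰 L, y = fun t => um 𝒰 (fun i => f i t) := ⟨_, rfl⟩
  rw [← hy] at hG hlq hQf ⊢
  obtain ⟨t0, ht0⟩ : ∃ t, y t ≠ 0 := by
    by_contra hcon
    push Not at hcon
    have h1 : ∀ t, ∀ᶠ i in (𝒰 : Filter I), f i t = 0 := by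
      intro t
      have h2 := hcon t
      rw [hy] at h2
      exact um_zero_iff.1 h2
    obtain ⟨i, hi⟩ := (eventually_all.2 h1).exists
    obtain ⟨t, ht⟩ := hne i
    exact ht (hi t)
  have hulin : ∀ m : Fin (n + 1) → F, um 𝒰 (fun i => Pool.Agent.W602.GT.lin m (f i)) =
      Pool.Agent.W602.GT.lin m y := by
    intro m
    rw [hy]
    exact um_lin m fun t i => f i t
  by_cases hcase : ∃ j0 j1, Pool.Agent.W602.GT.lin (lq j0) y /
      Pool.Agent.W602.GT.lin (lq j1) y ∉ E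
  · -- the boundary moves
    obtain ⟨j0, j1, hj⟩ := hcase
    let z : κ → ∀ i, L i := fun j i => Pool.Agent.W602.GT.lin (lq j) (f i) /
      Pool.Agent.W602.GT.lin (lq j1) (f i)
    have hz : ∀ j, um 𝒰 (z j) = Pool.Agent.W602.GT.lin (lq j) y /
        Pool.Agent.W602.GT.lin (lq j1) y := by
      intro j
      rw [← hulin, ← hulin, ← um_div]
    have hz0 : ∀ j, um 𝒰 (z j) ≠ 0 := fun j => by
      rw [hz]
      exact div_ne_zero (hG.lq_ne j) (hG.lq_ne j1)
    let a : κ → ∀ i, L i := fun j i => z j i ^ (d' j1 * d' j) /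
      (val (f i) (Q j) ^ d' j1 / val (f i) (Q j1) ^ d' j)
    have hval : ∀ j, um 𝒰 (fun i => val (f i) (Q j)) = val y (Q j) := by
      intro j
      rw [hy]
      exact um_val (Q j) fun t i => f i t
    have ha : ∀ j, um 𝒰 (a j) ∈ E := by
      intro j
      have h1 : um 𝒰 (a j) =
          (Pool.Agent.W602.GT.lin (lq j) y ^ (Q j).totalDegree / val y (Q j)) ^ d' j1 /
          (Pool.Agent.W602.GT.lin (lq j1) y ^ (Q j1).totalDegree / val y (Q j1)) ^ d' j := by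
        have h2 : um 𝒰 (a j) = um 𝒰 (z j) ^ (d' j1 * d' j) /
            (val y (Q j) ^ d' j1 / val y (Q j1) ^ d' j) := by
          rw [← hval, ← hval, ← um_pow, ← um_pow, ← um_pow, ← um_div, ← um_div]
        rw [h2, hz, hdeg, hdeg]
        have h3 := hQf j
        have h4 := hQf j1
        have h5 := hG.lq_ne j
        have h6 := hG.lq_ne j1
        simp only [div_pow, ← pow_mul]
        rw [mul_comm (d' j) (d' j1)]
        field_simp
      rw [h1]
      exact div_mem (pow_mem (hlq j) _) (pow_mem (hlq j1) _)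
    obtain ⟨S', B1, hS', hB1⟩ := more_places S hE hS a ha
    have hvne : ∀ j, ∀ᶠ i in (𝒰 : Filter I), val (f i) (Q j) ≠ 0 := by
      intro j
      apply um_ne_iff.1
      rw [hval]
      exact hQf j
    have hu : ∀ᶠ i in (𝒰 : Filter I), ∀ P ∉ S' i, ∀ j, P.ord (z j i) = 0 := by
      filter_upwards [eventually_all.2 fun j => um_ne_iff.1 (hz0 j), eventually_all.2 hvne]
        with i hi hvi P hP j
      obtain ⟨h1, h2⟩ := hS' i P hP
      have h3 := h2 j
      change P.ord (z j i ^ (d' j1 * d' j) /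
        (val (f i) (Q j) ^ d' j1 / val (f i) (Q j1) ^ d' j)) = 0 at h3
      have e1 : val (f i) (Q j) ≠ 0 := hvi j
      have e2 : val (f i) (Q j1) ≠ 0 := hvi j1
      have e3 : P.ord (val (f i) (Q j)) = d' j * pord P (f i) := hQS j i P h1
      have e4 : P.ord (val (f i) (Q j1)) = d' j1 * pord P (f i) := hQS j1 i P h1
      rw [P.ord_div (pow_ne_zero _ (hi j)) (div_ne_zero (pow_ne_zero _ e1) (pow_ne_zero _ e2)),
        P.ord_div (pow_ne_zero _ e1) (pow_ne_zero _ e2), P.ord_pow, P.ord_pow, P.ord_pow, e3,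
        e4] at h3
      have h4 : ((d' j1 * d' j : ℕ) : ℤ) * P.ord (z j i) = 0 := by
        linear_combination h3
      have h5 : ((d' j1 * d' j : ℕ) : ℤ) ≠ 0 := by
        exact_mod_cast (Nat.mul_pos (hd' j1) (hd' j)).ne'
      exact (mul_eq_zero.1 h4).resolve_left h5
    have hind := uindep S' hE hB1
      (J := {j // um 𝒰 (z j0) / um 𝒰 (z j) ∉ E}) (fun j => z j.1) (z j0) (fun j => hz0 j.1)
      (hz0 j0) (by
        filter_upwards [hu] with i h1 P hP
        exact ⟨h1 P hP j0, fun j => h1 P hP j.1⟩) (fun j => j.2)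
    obtain ⟨φ', hφ1, hφ2⟩ := Submodule.exists_le_ker_of_notMem hind
    have hφz : ∀ j, um 𝒰 (z j0) / um 𝒰 (z j) ∉ E → φ' (um 𝒰 (z j)) = 0 := by
      intro j h
      exact LinearMap.mem_ker.1 (hφ2 (Submodule.subset_span ⟨⟨j, h⟩, rfl⟩))
    let φ : UL 𝒰 L →ₗ[E] UL 𝒰 L :=
      (LinearMap.toSpanSingleton _ (UL 𝒰 L) (um 𝒰 (z j0))).comp ((φ' (um 𝒰 (z j0)))⁻¹ • φ')
    have hφ : ∀ w, φ w = ((φ' (um 𝒰 (z j0)))⁻¹ * φ' w : E) • um 𝒰 (z j0) := fun w => rfl
    have hφ0 : φ (um 𝒰 (z j0)) = um 𝒰 (z j0) := by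
      rw [hφ, inv_mul_cancel₀ hφ1, one_smul]
    have hφ3 : ∀ j, um 𝒰 (z j0) / um 𝒰 (z j) ∉ E → φ (um 𝒰 (z j)) = 0 := by
      intro j h
      rw [hφ, hφz j h, mul_zero, zero_smul]
    have hφ4 : ∀ j, um 𝒰 (z j0) / um 𝒰 (z j) ∈ E → φ (um 𝒰 (z j)) = um 𝒰 (z j) := by
      intro j h
      have h1 : um 𝒰 (z j) / um 𝒰 (z j0) ∈ E := mdiv_symm h
      have h2 : um 𝒰 (z j) = (⟨_, h1⟩ : E) • um 𝒰 (z j0) := by
        change um 𝒰 (z j) = um 𝒰 (z j) / um 𝒰 (z j0) * um 𝒰 (z j0)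
        rw [div_mul_cancel₀ _ (hz0 j0)]
      rw [h2, φ.map_smul, hφ0]
    have hz1 : um 𝒰 (z j1) = 1 := by rw [hz, div_self (hG.lq_ne j1)]
    have hφ5 : φ 1 = 0 := by
      rw [← hz1]
      apply hφ3
      rw [hz1, div_one, hz]
      exact hj
    obtain ⟨t, ht⟩ : ∃ t, φ (y t / Pool.Agent.W602.GT.lin (lq j1) y) ≠ 0 := by
      by_contra hcon
      push Not at hcon
      apply hz0 j0
      rw [← hφ0, hz]
      have h2 : Pool.Agent.W602.GT.lin (lq j0) y / Pool.Agent.W602.GT.lin (lq j1) y =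
          ∑ t, algebraMap F (UL 𝒰 L) (lq j0 t) *
            (y t / Pool.Agent.W602.GT.lin (lq j1) y) := by
        rw [← lin_div]
        rfl
      rw [h2, map_sum]
      refine Finset.sum_eq_zero fun t _ => ?_
      have h3 := φ.map_smul (⟨_, E.algebraMap_mem (lq j0 t)⟩ : E)
        (y t / Pool.Agent.W602.GT.lin (lq j1) y)
      rw [hcon, smul_zero] at h3
      exact h3
    exact Pool.Agent.W603.CY.punct_of_map hG (hG.lq_ne j1) φ hφ5 ht {j | um 𝒰 (z j0) / um 𝒰 (z j) ∈ E}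
      (fun j h => by rw [← hz]; exact hφ4 j h) (fun j h => by rw [← hz]; exact hφ3 j h)
  · -- the boundary does not move
    push Not at hcase
    obtain ⟨ls, hls, hls1⟩ : ∃ ls : Fin (n + 1) → F, Pool.Agent.W602.GT.lin ls y ≠ 0 ∧
        ∀ j, Pool.Agent.W602.GT.lin (lq j) y / Pool.Agent.W602.GT.lin ls y ∈ E := by
      by_cases hne : Nonempty κ
      · obtain ⟨j1⟩ := hne
        exact ⟨lq j1, hG.lq_ne j1, fun j => hcase j j1⟩
      · exact ⟨Pi.single t0 1, by rw [lin_single]; exact ht0, fun j => absurd ⟨j⟩ hne⟩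
    obtain ⟨t, ht⟩ : ∃ t, y t / Pool.Agent.W602.GT.lin ls y ∉ E := by
      by_contra hcon
      push Not at hcon
      have h1 : ∀ t, ∃ B : ℕ, ∀ᶠ i in (𝒰 : Filter I),
          hgt k (f i t / f i t0) ≤ B * χ i := by
        intro t
        have h2 : y t / y t0 ∈ E := mdiv_trans hls (hcon t) (mdiv_symm (hcon t0))
        rw [hy] at h2
        simp only at h2
        rw [← um_div] at h2
        exact (hE.2 _).1 h2
      choose B hB using h1
      have h2 : ∀ᶠ i in (𝒰 : Filter I), f i t0 ≠ 0 := by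
        rw [hy] at ht0
        exact um_ne_iff.1 ht0
      obtain ⟨i, ⟨hi1, hi2⟩, hi3⟩ := (((eventually_all.2 hB).and h2).and (hht (∑ t, B t))).exists
      have h4 := pht_le (k := k) (f i) hi2
      have h5 : ∑ j, hgt k (f i j / f i t0) ≤ ∑ j, (B j : ℤ) * χ i :=
        Finset.sum_le_sum fun j _ => hi1 j
      rw [← Finset.sum_mul] at h5
      push_cast at hi3
      linarith
    have hind : y t / Pool.Agent.W602.GT.lin ls y ∉ Submodule.span E {(1 : UL 𝒰 L)} := by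
      intro h
      obtain ⟨c, hc⟩ := Submodule.mem_span_singleton.1 h
      apply ht
      rw [← hc]
      change (c : UL 𝒰 L) * 1 ∈ _
      rw [mul_one]
      exact c.2
    obtain ⟨φ', hφ1, hφ2⟩ := Submodule.exists_le_ker_of_notMem hind
    let φ : UL 𝒰 L →ₗ[E] UL 𝒰 L := (Algebra.linearMap _ (UL 𝒰 L)).comp φ'
    have hφ : ∀ w, φ w = (φ' w : UL 𝒰 L) := fun w => rfl
    have hφ5 : φ 1 = 0 := by
      rw [hφ, LinearMap.mem_ker.1 (hφ2 (Submodule.mem_span_singleton_self _))]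
      rfl
    refine Pool.Agent.W603.CY.punct_of_map hG hls φ hφ5 (l := t) ?_ ∅
      (fun j h => absurd h (Set.notMem_empty j)) (fun j _ => ?_)
    · rw [hφ]
      intro h
      exact hφ1 (Subtype.ext h)
    · have h2 := φ.map_smul (⟨_, hls1 j⟩ : E) 1
      rw [hφ5, smul_zero] at h2
      rw [← h2]
      congr 1
      change _ = Pool.Agent.W602.GT.lin (lq j) y / Pool.Agent.W602.GT.lin ls y * 1
      rw [mul_one]

end Pool.Agent.TH710.NU
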