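import Pool.Agent.TH710.NU.Line
import Pool.Agent.W603.CX.WarCond2

/-!
Specialisation of punctured lines, and maps of unbounded degree along them.
-/

set_option autoImplicit false

open FF MvPolynomial Pool.Agent.W603.LV Pool.Agent.W603.PV Pool.Agent.W603.GR
  Pool.Agent.W602.GT Pool.Agent.W603.GW Pool.Agent.W603.GX
  Pool.Agent.W603.GY Pool.Agent.TH710.ND

namespace Pool.Agent.TH710.NU

variable {k : Type} [Field k] {n : ℕ} {ι κ : Type} {F : ι → MvPolynomial (Fin (n + 1)) k}
  {Q : κ → MvPolynomial (Fin (n + 1)) k}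

/-- specialisation of a punctured line -/
theorem spec_k [IsAlgClosed k] [Finite κ] {K : Type} [Field K] [Algebra k K]
    {y : Fin (n + 1) → K} (hoff : ∀ j, val y (Q j) ≠ 0) (hP : PunctX F Q y)
    {G : MvPolynomial (Fin (n + 1)) k} (hGy : val y G ≠ 0) :
    ∃ x : Fin (n + 1) → k, val x G ≠ 0 ∧ (∀ j, val x (Q j) ≠ 0) ∧
      (∀ H : MvPolynomial (Fin (n + 1)) k, val y H = 0 → val x H = 0) ∧ PunctX F Q x := by
  classical
  have := Fintype.ofFinite κ
  obtain ⟨v, T, hyv, hline, hQ1, hQ2⟩ := hP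
  obtain ⟨i0, j0, hij⟩ := hyv
  let σ := (Fin (n + 1) ⊕ Fin (n + 1)) ⊕ Empty
  let z : σ → K := Sum.elim (Sum.elim y v) Empty.elim
  have h1 : aeval z (cmb Empty 1 0 G *
      (X (Sum.inl (Sum.inl i0)) * X (Sum.inl (Sum.inr j0)) -
        X (Sum.inl (Sum.inl j0)) * X (Sum.inl (Sum.inr i0))) *
      ∏ j, cmb Empty 1 0 (Q j) : MvPolynomial σ k) ≠ 0 := by
    rw [map_mul, map_mul, map_prod, cmb_val10]
    refine mul_ne_zero (mul_ne_zero hGy ?_) (Finset.prod_ne_zero_iff.2 fun j _ => ?_)
    · simpa [z] using hij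
    · rw [cmb_val10]
      exact hoff j
  obtain ⟨z0, hz, hz0⟩ := specialise z _ h1
  obtain ⟨y0, v0, rfl⟩ : ∃ (y0 v0 : Fin (n + 1) → k),
      z0 = Sum.elim (Sum.elim y0 v0) Empty.elim :=
    ⟨fun i => z0 (Sum.inl (Sum.inl i)), fun i => z0 (Sum.inl (Sum.inr i)), by
      funext s
      rcases s with (s | s) | s
      · rfl
      · rfl
      · exact s.elim⟩
  rw [map_mul, map_mul, map_prod, cmb_val10] at hz
  have hz1 := left_ne_zero_of_mul (left_ne_zero_of_mul hz)
  have hz2 := right_ne_zero_of_mul (left_ne_zero_of_mul hz)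
  have hz3 := right_ne_zero_of_mul hz
  simp only [map_sub, map_mul, aeval_X, Sum.elim_inl, Sum.elim_inr] at hz2
  have hy0Q : ∀ j, val y0 (Q j) ≠ 0 := by
    intro j
    have h4 := Finset.prod_ne_zero_iff.1 hz3 j (Finset.mem_univ j)
    rwa [cmb_val10] at h4
  refine ⟨y0, hz1, hy0Q, fun H hH => ?_, v0, T, ⟨i0, j0, hz2⟩, ?_, ?_, ?_⟩
  · have h2 : aeval z (cmb Empty 1 0 H) = 0 := by
      rw [cmb_val10]
      exact hH
    have h3 := hz0 _ h2
    rwa [cmb_val10] at h3
  · intro c c' e
    have h2 : aeval z (cmb Empty c c' (F e)) = 0 := by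
      rw [cmb_val]
      exact hline _ _ e
    have h3 := hz0 _ h2
    rw [cmb_val] at h3
    exact h3
  · intro c c' j hj
    have h2 : aeval z (cmb Empty c c' (Q j) -
        cmb Empty 1 0 (Q j) * C ((c + c') ^ (Q j).totalDegree)) = 0 := by
      rw [map_sub, map_mul, cmb_val, cmb_val10, aeval_C, hQ1 _ _ j hj, map_pow, map_add,
        sub_self]
    have h3 := hz0 _ h2
    rw [map_sub, map_mul, cmb_val, cmb_val10, aeval_C, sub_eq_zero] at h3
    exact h3
  · intro c c' j hj
    have h2 : aeval z (cmb Empty c c' (Q j) -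
        cmb Empty 1 0 (Q j) * C (c ^ (Q j).totalDegree)) = 0 := by
      rw [map_sub, map_mul, cmb_val, cmb_val10, aeval_C, hQ2 _ _ j hj, map_pow, sub_self]
    have h3 := hz0 _ h2
    rw [map_sub, map_mul, cmb_val, cmb_val10, aeval_C, sub_eq_zero] at h3
    exact h3

/-- the polynomial `H (x + t v)` in `t` -/
noncomputable def alongk (x v : Fin (n + 1) → k) (H : MvPolynomial (Fin (n + 1)) k) :
    Polynomial k := aeval (fun a => Polynomial.C (x a) + Polynomial.X * Polynomial.C (v a)) H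

theorem aeval_alongk {L : Type} [Field L] [Algebra k L] (x v : Fin (n + 1) → k)
    (H : MvPolynomial (Fin (n + 1)) k) (s : L) : Polynomial.aeval s (alongk x v H) =
      aeval (fun a => algebraMap k L (x a) + s * algebraMap k L (v a)) H := by
  have h2 : ((Polynomial.aeval s).comp (aeval (fun a => Polynomial.C (x a) +
      Polynomial.X * Polynomial.C (v a)) : MvPolynomial (Fin (n + 1)) k →ₐ[k] Polynomial k)) =
      (aeval (fun a => algebraMap k L (x a) + s * algebraMap k L (v a)) :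
        MvPolynomial (Fin (n + 1)) k →ₐ[k] L) := by
    apply MvPolynomial.algHom_ext
    intro a
    simp
    ring
  have h3 := congrArg (fun φ : MvPolynomial (Fin (n + 1)) k →ₐ[k] L => φ H) h2
  exact h3

theorem eval_alongk (x v : Fin (n + 1) → k) (H : MvPolynomial (Fin (n + 1)) k) (t : k) :
    (alongk x v H).eval t = val (fun a => x a + t * v a) H := by
  have h := aeval_alongk (L := k) x v H t
  rw [Polynomial.coe_aeval_eq_eval] at h
  exact h

/-- **Maps of unbounded degree** from the multiplicative group to a punctured line. -/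
theorem unbounded_k [IsAlgClosed k] [CharZero k] {x : Fin (n + 1) → k}
    (hoff : ∀ j, val x (Q j) ≠ 0) (hP : PunctX F Q x) (B : ℤ) :
    ∃ f : Fin (n + 1) → RatFunc k, (∃ t, f t ≠ 0) ∧ (∀ i, aeval f (F i) = 0) ∧
      (∀ j, aeval f (Q j) ≠ 0) ∧
      (∀ j, ∀ P ∉ (finite_support (k := k) (RatFunc.X : RatFunc k)).toFinset,
        P.ord (aeval f (Q j)) = (Q j).totalDegree * pord P f) ∧ B < pht k f ∧
      ∀ H : MvPolynomial (Fin (n + 1)) k, val x H ≠ 0 → aeval f H ≠ 0 := by
  classical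
  have hinf : Infinite k := inferInstance
  obtain ⟨v, T0, ⟨j, l, hjl⟩, hl1, hl2, hl3⟩ := hP
  obtain ⟨T, hTd⟩ : ∃ T : RatFunc k, T = RatFunc.X := ⟨_, rfl⟩
  have hTt : Transcendental k T := hTd ▸ RatFunc.transcendental_X
  have hT0 : T ≠ 0 := by rw [hTd]; exact RatFunc.X_ne_zero
  have hT1 : 1 ≤ hgt k T := by
    by_contra hcon
    obtain ⟨c, hc⟩ := const_of_hgt (k := k) (f := T) (by omega)
    exact hTt (hc ▸ isAlgebraic_algebraMap c)
  rw [← hTd]
  obtain ⟨τ, hτ⟩ : ∃ τ : RatFunc k, τ = T ^ ((B + 1).toNat + 1) := ⟨_, rfl⟩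
  have hτ0 : τ ≠ 0 := by rw [hτ]; exact pow_ne_zero _ hT0
  have hτt : Transcendental k τ := hτ ▸ hTt.pow (Nat.succ_pos _)
  have hlt : B < hgt k τ := by
    rw [hτ, hgt_pow hT0]
    have h1 : (((B + 1).toNat + 1 : ℕ) : ℤ) * 1 ≤ (((B + 1).toNat + 1 : ℕ) : ℤ) * hgt k T :=
      mul_le_mul_of_nonneg_left hT1 (by positivity)
    refine lt_of_lt_of_le ?_ h1
    push_cast
    omega
  -- the parametrisation
  obtain ⟨x', hx'⟩ : ∃ x' : Fin (n + 1) → k, x' = fun a => x a - v a := ⟨_, rfl⟩
  have hpt : ∀ c : k, (fun a => x' a + c * v a) = fun a => 1 * x a + (c - 1) * v a := by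
    intro c
    funext a
    rw [hx']
    ring
  have hpt1 : (fun a => x' a + 1 * v a) = x := by
    rw [hpt 1]
    funext a
    ring
  have hjl' : v j * x' l ≠ v l * x' j := by
    intro h0
    apply hjl
    rw [hx'] at h0
    linear_combination -h0
  have hptne : ∀ c : k, ∃ a, x' a + c * v a ≠ 0 := by
    intro c
    by_contra h0
    push Not at h0
    apply hjl'
    linear_combination v j * h0 l - v l * h0 j
  obtain ⟨f, hf⟩ : ∃ f : Fin (n + 1) → RatFunc k, f = fun a =>
    algebraMap k (RatFunc k) (x' a) + τ * algebraMap k (RatFunc k) (v a) := ⟨_, rfl⟩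
  have hle : hgt k τ ≤ pht k f := hf ▸ Pool.Agent.W603.CX.hgt_le_line (L := RatFunc k) x' v hjl' hτ0
  have hval : ∀ H, aeval f H = Polynomial.aeval τ (alongk x' v H) := fun H => by
    rw [aeval_alongk, hf]
  have hpoly : ∀ (H : MvPolynomial (Fin (n + 1)) k) (p : Polynomial k),
      (∀ t : k, val (fun a => x' a + t * v a) H = p.eval t) → aeval f H =
        Polynomial.aeval τ p := by
    intro H p h
    rw [hval]
    congr 1
    rw [← sub_eq_zero]
    apply Polynomial.eq_zero_of_infinite_isRoot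
    have : {t : k | (alongk x' v H - p).IsRoot t} = Set.univ := by
      ext t
      simp only [Set.mem_setOf_eq, Set.mem_univ, iff_true, Polynomial.IsRoot.def]
      rw [Polynomial.eval_sub, eval_alongk, h, sub_self]
    rw [this]
    exact Set.infinite_univ
  have hfF : ∀ i, aeval f (F i) = 0 := by
    intro i
    rw [hpoly (F i) 0 (fun t => ?_), map_zero]
    rw [hpt t, Polynomial.eval_zero]
    exact hl1 _ _ i
  have hfQ : ∀ j, ∃ e : ℕ, aeval f (Q j) = algebraMap k (RatFunc k) (val x (Q j)) * τ ^ e := by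
    intro j
    by_cases hj : j ∈ T0
    · refine ⟨(Q j).totalDegree, ?_⟩
      rw [hpoly (Q j) (Polynomial.C (val x (Q j)) * Polynomial.X ^ (Q j).totalDegree)
        (fun t => ?_)]
      · rw [map_mul, Polynomial.aeval_C, map_pow, Polynomial.aeval_X]
      · rw [hpt t, hl2 _ _ j hj, Polynomial.eval_mul, Polynomial.eval_C, Polynomial.eval_pow,
          Polynomial.eval_X]
        congr 2
        ring
    · refine ⟨0, ?_⟩
      rw [hpoly (Q j) (Polynomial.C (val x (Q j))) (fun t => ?_)]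
      · rw [Polynomial.aeval_C, pow_zero, mul_one]
      · rw [hpt t, hl3 _ _ j hj, Polynomial.eval_C, one_pow, mul_one]
  have hfH : ∀ H : MvPolynomial (Fin (n + 1)) k, val x H ≠ 0 → aeval f H ≠ 0 := by
    intro H hH h0
    rw [hval] at h0
    have h1 : alongk x' v H = 0 := by
      by_contra hne
      exact hτt ⟨_, hne, h0⟩
    apply hH
    have h2 := eval_alongk x' v H 1
    rw [h1, Polynomial.eval_zero, hpt1] at h2
    exact h2.symm
  have hfne : ∃ t, f t ≠ 0 := by
    obtain ⟨a, ha⟩ : ∃ a, x a ≠ 0 := by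
      have h1 := hptne 1
      obtain ⟨a, ha⟩ := h1
      exact ⟨a, by rwa [congrFun hpt1 a] at ha⟩
    refine ⟨a, ?_⟩
    have := hfH (X a) (by
      unfold Pool.Agent.W602.GT.val
      rw [aeval_X]
      exact ha)
    rwa [aeval_X] at this
  refine ⟨f, hfne, hfF, fun j => hfH _ (hoff j), fun j' P hP => ?_, lt_of_lt_of_le hlt hle, hfH⟩
  -- orders at the places outside the support of `T`
  have hPT : P.ord T = 0 := by
    by_contra h
    exact hP (by simpa using h)
  have hPτ : P.ord τ = 0 := by rw [hτ, P.ord_pow, hPT, mul_zero]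
  obtain ⟨c, hc⟩ := exists_const P (Or.inr hPτ.ge : Ge P 0 τ)
  have hfP : ∀ a, Ge P 0 (f a) := by
    intro a
    rw [hf]
    have h0 : Ge P 0 τ := Or.inr hPτ.ge
    have h1 := h0.mul (Ge.const (P := P) (v a))
    rw [zero_add] at h1
    exact (Ge.const (P := P) (x' a)).add h1
  have hfc : ∀ a, Ge P 1 (f a - algebraMap k (RatFunc k) (x' a + c * v a)) := by
    intro a
    have h1 : f a - algebraMap k (RatFunc k) (x' a + c * v a) =
        (τ - algebraMap k (RatFunc k) c) * algebraMap k (RatFunc k) (v a) := by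
      rw [hf, map_add, map_mul]
      ring
    rw [h1]
    have h2 := hc.mul (Ge.const (P := P) (v a))
    rwa [add_zero] at h2
  have hp0 : pord P f = 0 := by
    obtain ⟨a, ha⟩ := hptne c
    have hfa : f a ≠ 0 := by
      have h2 := hfc a
      intro h0
      rw [h0, zero_sub] at h2
      have h3 := h2.neg
      rw [neg_neg] at h3
      exact ha (const_zero P h3)
    have hoa : P.ord (f a) = 0 := by
      have h4 := (hfP a).resolve_left hfa
      by_contra h3
      have h5 : Ge P 1 (f a) := Or.inr (by omega)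
      have h6 := h5.sub (hfc a)
      rw [sub_sub_cancel] at h6
      exact ha (const_zero P h6)
    have h2 := pord_le P hfa
    obtain ⟨b, hb, h3⟩ := exists_pord P hfne
    have h4 := (hfP b).resolve_left hb
    omega
  obtain ⟨e, he⟩ := hfQ j'
  have hv0 : algebraMap k (RatFunc k) (val x (Q j')) ≠ 0 := by
    rw [Ne, map_eq_zero]
    exact hoff j'
  rw [he, P.ord_mul hv0 (pow_ne_zero _ hτ0), P.ord_const (hoff j'), P.ord_pow, hPτ, hp0]
  ring

/-- points of `X` over an extension in an open subset of a component -/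
theorem in_comp [IsAlgClosed k] [Finite κ] {K : Type} [Field K] [Algebra k K]
    {y : Fin (n + 1) → K} {H : MvPolynomial (Fin (n + 1)) k}
    (hH : ∀ x ∈ PtsQ F Q, val x H ≠ 0 → x ∈ VarPts k y) {L : Type} [Field L]
    [Algebra k L] {f : Fin (n + 1) → L} (hf0 : f ≠ 0) (hfF : ∀ e, val f (F e) = 0)
    (hfQ : ∀ j, val f (Q j) ≠ 0) (hfH : val f H ≠ 0)
    (G : MvPolynomial (Fin (n + 1)) k) (hG : IsForm G) (hGy : val y G = 0) : val f G = 0 := by
  classical
  have := Fintype.ofFinite κ
  have h1 : val f (H * G * ∏ j, Q j) = 0 := by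
    refine val_of_cone (U := ∅) hf0 (fun j hj => absurd hj (Set.notMem_empty j)) hfF ?_
    intro x hx
    rw [val_mul, val_mul, val_prod]
    by_cases h0 : val x H = 0
    · rw [h0, zero_mul, zero_mul]
    by_cases h2 : ∃ j, val x (Q j) = 0
    · obtain ⟨j, hj⟩ := h2
      rw [Finset.prod_eq_zero (Finset.mem_univ j) hj, mul_zero]
    · push Not at h2
      rw [(hH x ⟨hx.1, hx.2.2, h2⟩ h0).2 G hG hGy, mul_zero, zero_mul]
  rw [val_mul, val_mul, val_prod] at h1
  have h2 : ∏ j, val f (Q j) ≠ 0 := Finset.prod_ne_zero_iff.2 fun j _ => hfQ j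
  exact (mul_eq_zero.1 ((mul_eq_zero.1 h1).resolve_right h2)).resolve_left hfH

end Pool.Agent.TH710.NU
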