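import Pool.Agent.TH710.ND.Good

/-!
Relations between nested sums of high powers over a field with a notion of divisibility of orders:
the relations are preserved by specialisations which preserve the relations between the leaves.
-/

set_option autoImplicit false

open MvPolynomial Pool.Agent.TH710.ND

namespace Pool.Agent.TH710.NU

variable {F K : Type} [Field F] [Field K] [Algebra F K]

/-- A subfield `E` of small elements, with a notion `Dv e z`: the orders of `z` are divisible by `e`
up to small sets, such that the classes of a vanishing sum of few such terms vanish. -/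
structure DSys (E : IntermediateField F K) (Dv : ℕ → K → Prop) : Prop where
  root : Root E
  const : ∀ e z, z ∈ E → Dv e z
  pow : ∀ e z, Dv e (z ^ e)
  mul : ∀ e z w, Dv e z → Dv e w → Dv e (z * w)
  dvd : ∀ e m z, Dv (e * m) z → Dv e z
  down : ∀ e m z, 0 < e → Dv (e * m) (z ^ e) → Dv m z
  sum : ∀ (e : ℕ), 0 < e → ∀ {J : Type} [Fintype J] (T : J → K), (∀ j, T j ≠ 0 → Dv e (T j)) →
    ∑ j, T j = 0 → (Fintype.card J - 1) ^ 2 ≤ e → ∀ (j0 : J), T j0 ≠ 0 → ∀ A : Finset J,
      (∀ j, j ∈ A ↔ T j ≠ 0 ∧ T j0 / T j ∈ E) → ∑ j ∈ A, T j = 0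

variable {E : IntermediateField F K} {Dv : ℕ → K → Prop}

theorem DSys.neg (h : DSys E Dv) {e : ℕ} {z : K} (hz : Dv e z) : Dv e (-z) := by
  have h1 := h.mul e (-1) z (h.const e (-1) (neg_mem (one_mem E))) hz
  rwa [neg_one_mul] at h1

section spec

variable {M : Type} [CommRing M] [Algebra K M]

/-- the relation of proportionality -/
theorem rel_equiv {J : Type} (T : J → K) (hT : ∀ j, T j ≠ 0) :
    Equivalence fun i j : J => T i / T j ∈ E := by
  refine ⟨fun i => ?_, fun {i j} h => mdiv_symm h, fun {i j l} h1 h2 => mdiv (hT j) h1 h2⟩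
  rw [div_self (hT i)]
  exact one_mem _

/-- **A vanishing sum is preserved** -/
theorem step (h : DSys E Dv) {e : ℕ} (he0 : 0 < e) {J : Type} [Fintype J] (T : J → K)
    (T' : J → M) (hTm : ∀ j, T j ≠ 0 → Dv e (T j)) (hsum : ∑ j, T j = 0)
    (hcard : (Fintype.card J - 1) ^ 2 ≤ e) (h0 : ∀ j, T j = 0 → T' j = 0)
    (hrel : ∀ i j, T i ≠ 0 → T j ≠ 0 → T i / T j ∈ E →
      T' i * algebraMap K M (T j) = algebraMap K M (T i) * T' j) : ∑ j, T' j = 0 := by
  classical
  rw [← sum_sub T T' h0]
  refine class_zero (fun i j : {j // T j ≠ 0} => T i.1 / T j.1 ∈ E)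
    (rel_equiv (fun j : {j // T j ≠ 0} => T j.1) fun j => j.2) (fun a : {j // T j ≠ 0} => T a.1)
    (fun a => a.2) (fun a => T' a.1) (fun i j hij => hrel i.1 j.1 i.2 j.2 hij) ?_
  intro j0 A hA
  have h1 := h.sum e he0 T hTm hsum hcard j0.1 j0.2
    (Finset.univ.filter fun j => T j ≠ 0 ∧ T j0.1 / T j ∈ E) (by simp)
  refine Eq.trans ?_ h1
  refine Finset.sum_nbij (fun a => a.1) (fun a ha => ?_) (fun a _ b _ hab => Subtype.ext hab)
    (fun j hj => ?_) (fun a _ => rfl)
  · rw [Finset.mem_filter]
    exact ⟨Finset.mem_univ _, a.2, (hA a).1 ha⟩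
  · rw [Finset.mem_coe, Finset.mem_filter] at hj
    exact ⟨⟨j, hj.2.1⟩, (hA _).2 hj.2.2, rfl⟩

/-- another term in the class of a term -/
theorem other (h : DSys E Dv) {e : ℕ} (he0 : 0 < e) {J : Type} [Fintype J] (T : J → K)
    (hTm : ∀ j, T j ≠ 0 → Dv e (T j)) (hsum : ∑ j, T j = 0)
    (hcard : (Fintype.card J - 1) ^ 2 ≤ e) {j0 : J} (hj0 : T j0 ≠ 0) :
    ∃ i, i ≠ j0 ∧ T i ≠ 0 ∧ T i / T j0 ∈ E := by
  classical
  have h1 := h.sum e he0 T hTm hsum hcard j0 hj0
    (Finset.univ.filter fun j => T j ≠ 0 ∧ T j0 / T j ∈ E) (by simp)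
  by_contra hcon
  push Not at hcon
  have h2 : Finset.univ.filter (fun j => T j ≠ 0 ∧ T j0 / T j ∈ E) = {j0} := by
    ext i
    rw [Finset.mem_filter, Finset.mem_singleton]
    constructor
    · rintro ⟨-, h3, h4⟩
      by_contra hne
      exact hcon i hne h3 (mdiv_symm h4)
    · intro h3
      rw [h3, div_self hj0]
      exact ⟨Finset.mem_univ _, hj0, one_mem _⟩
  rw [h2, Finset.sum_singleton] at h1
  exact hj0 h1

end spec

variable {σ : Type} {Lf : MvPolynomial σ F → Prop} {y : σ → K}

/-- All exponents are large compared with the numbers of summands. -/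
def GoodL (L : List (ℕ × ℕ)) : Prop := ∀ ke ∈ L, 0 < ke.2 ∧ (2 * ke.1 - 1) ^ 2 ≤ ke.2

theorem GoodL.tail {ke : ℕ × ℕ} {L : List (ℕ × ℕ)} (h : GoodL (ke :: L)) : GoodL L :=
  fun x hx => h x (List.mem_cons_of_mem _ hx)

theorem GoodL.head {ke : ℕ × ℕ} {L : List (ℕ × ℕ)} (h : GoodL (ke :: L)) :
    0 < ke.2 ∧ (2 * ke.1 - 1) ^ 2 ≤ ke.2 := h ke List.mem_cons_self

theorem sq_le {k e : ℕ} (h : (2 * k - 1) ^ 2 ≤ e) : k ^ 2 ≤ e := by
  rcases Nat.eq_zero_or_pos k with rfl | hk
  · simp
  · exact (Nat.pow_le_pow_left (by omega) 2).trans h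

theorem GoodL.wk {L : List (ℕ × ℕ)} (h : GoodL L) : ∀ ke ∈ L, 0 < ke.2 ∧ ke.1 ^ 2 ≤ ke.2 :=
  fun ke hke => ⟨(h ke hke).1, sq_le (h ke hke).2⟩

section spec

variable {M : Type} [CommRing M] [Algebra F M] [Algebra K M] [IsScalarTower F K M]
  {x : σ → M}

omit [IsScalarTower F K M] in
/-- the power terms with small coefficients -/
theorem pow_step (h : DSys E Dv) {e : ℕ} (he0 : 0 < e) {J : Type} [Fintype J] (κ : J → K)
    (hκ : ∀ j, κ j ∈ E) (g : J → MvPolynomial σ F)
    (hsum : ∑ j, κ j * aeval y (g j) ^ e = 0) (hcard : (Fintype.card J - 1) ^ 2 ≤ e)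
    (h0 : ∀ j, aeval y (g j) = 0 → aeval x (g j) = 0)
    (hrel : ∀ i j, aeval y (g i) ≠ 0 → aeval y (g j) ≠ 0 →
      aeval y (g i) / aeval y (g j) ∈ E → aeval x (g i) * algebraMap K M (aeval y (g j)) =
          algebraMap K M (aeval y (g i)) * aeval x (g j)) :
    ∑ j, algebraMap K M (κ j) * aeval x (g j) ^ e = 0 := by
  refine step h he0 (fun j => κ j * aeval y (g j) ^ e)
    (fun j => algebraMap K M (κ j) * aeval x (g j) ^ e)
    (fun j _ => h.mul _ _ _ (h.const _ _ (hκ j)) (h.pow _ _)) hsum hcard ?_ ?_
  · intro j hj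
    change κ j * aeval y (g j) ^ e = 0 at hj
    change algebraMap K M (κ j) * aeval x (g j) ^ e = 0
    rcases mul_eq_zero.1 hj with h | h
    · rw [h, map_zero, zero_mul]
    · rw [h0 j (pow_eq_zero_iff he0.ne' |>.1 h), zero_pow he0.ne', mul_zero]
  · intro i j hi hj hij
    obtain ⟨h1, h2⟩ := mul_pow_ne he0 hi
    obtain ⟨h3, h4⟩ := mul_pow_ne he0 hj
    refine pow_rel (hrel i j h2 h4 (root_div h.root he0 ?_))
    have h5 : aeval y (g i) ^ e / aeval y (g j) ^ e =
        (κ i * aeval y (g i) ^ e / (κ j * aeval y (g j) ^ e)) * κ j * (κ i)⁻¹ := by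
      field_simp
    rw [h5]
    exact mul_mem (mul_mem hij (hκ j)) (inv_mem (hκ i))

/-- **Gates.** -/
theorem gate_rel (h : DSys E Dv) (hE : Env E Lf y x) (L : List (ℕ × ℕ)) : GoodL L →
    (∀ p, GateL Lf L p → aeval y p = 0 → aeval x p = 0) ∧
    (∀ p q, GateL Lf L p → GateL Lf L q → aeval y p ≠ 0 → aeval y q ≠ 0 →
        aeval y p / aeval y q ∈ E →
        aeval x p * algebraMap K M (aeval y q) = algebraMap K M (aeval y p) * aeval x q) := by
  induction L with
  | nil =>
    intro _
    exact ⟨fun p hp => hE.z p hp, fun p q hp hq h1 h2 h3 => hE.p p q hp hq h1 h2 h3⟩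
  | cons ke L ih =>
    intro hL
    obtain ⟨he0, hks⟩ := hL.head
    obtain ⟨ihz, ihp⟩ := ih hL.tail
    constructor
    · rintro p ⟨a, g, hg, rfl⟩ hp
      rw [aeval_sum_pow] at hp ⊢
      have h1 := pow_step h (x := x) he0 (fun i => algebraMap F K (a i))
        (fun i => E.algebraMap_mem _) g hp
        (by
          rw [Fintype.card_fin]
          exact (Nat.pow_le_pow_left (by omega) 2).trans hks)
        (fun j hj => ihz (g j) (hg j) hj)
        (fun i j hi hj hl => ihp (g i) (g j) (hg i) (hg j) hi hj hl)
      simp only [← IsScalarTower.algebraMap_apply] at h1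
      exact h1
    · rintro p q hp hq hp0 hq0 hl
      obtain ⟨a, g, hg, hpe⟩ := hp
      obtain ⟨b, g', hg', hqe⟩ := hq
      set lam : K := aeval y p / aeval y q with hlam
      let G : Fin ke.1 ⊕ Fin ke.1 → MvPolynomial σ F := Sum.elim g g'
      have hG : ∀ i, GateL Lf L (G i) := by
        rintro (i | i)
        · exact hg i
        · exact hg' i
      let κ : Fin ke.1 ⊕ Fin ke.1 → K :=
        Sum.elim (fun i => algebraMap F K (a i)) (fun i => -lam * algebraMap F K (b i))
      have hval : ∑ i, κ i * aeval y (G i) ^ ke.2 = aeval y p - lam * aeval y q := by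
        rw [hpe, hqe, aeval_sum_pow, aeval_sum_pow, Fintype.sum_sum_type, Finset.mul_sum,
          sub_eq_add_neg, ← Finset.sum_neg_distrib]
        congr 1
        exact Finset.sum_congr rfl fun i _ => by
          simp only [κ, G, Sum.elim_inr]; ring
      have hval' : ∑ i, algebraMap K M (κ i) * aeval x (G i) ^ ke.2 =
          aeval x p - algebraMap K M lam * aeval x q := by
        rw [hpe, hqe, aeval_sum_pow, aeval_sum_pow, Fintype.sum_sum_type, Finset.mul_sum,
          sub_eq_add_neg, ← Finset.sum_neg_distrib]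
        congr 1
        · exact Finset.sum_congr rfl fun i _ => by
            simp only [κ, G, Sum.elim_inl]
            rw [← IsScalarTower.algebraMap_apply]
        · exact Finset.sum_congr rfl fun i _ => by
            simp only [κ, G, Sum.elim_inr]
            rw [map_mul, map_neg, ← IsScalarTower.algebraMap_apply]
            ring
      have h1 := pow_step h (x := x) he0 κ (by
          rintro (i | i)
          · exact E.algebraMap_mem _
          · exact mul_mem (neg_mem hl) (E.algebraMap_mem _)) G
        (by rw [hval, hlam, div_mul_cancel₀ _ hq0, sub_self])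
        (by
          rw [Fintype.card_sum, Fintype.card_fin, ← two_mul]
          exact hks)
        (fun j hj => ihz (G j) (hG j) hj)
        (fun i j hi hj hl' => ihp (G i) (G j) (hG i) (hG j) hi hj hl')
      rw [hval', sub_eq_zero, hlam] at h1
      rw [h1, mul_right_comm, ← map_mul, div_mul_cancel₀ _ hq0]

/-- **The leaf of a boundary gate.** -/
theorem exists_leaf (h : DSys E Dv) (L : List (ℕ × ℕ)) :
    (∀ ke ∈ L, 0 < ke.2 ∧ ke.1 ^ 2 ≤ ke.2) → ∀ p, GateL Lf L p → aeval y p ≠ 0 →
        Dv (L.map Prod.snd).prod (aeval y p) →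
        ∃ l, Lf l ∧ aeval y l ≠ 0 ∧ aeval y l ^ (L.map Prod.snd).prod / aeval y p ∈ E := by
  induction L with
  | nil =>
    intro _ p hp h1 _
    refine ⟨p, hp, h1, ?_⟩
    simp only [List.map_nil, List.prod_nil, pow_one]
    rw [div_self h1]
    exact one_mem _
  | cons ke L ih =>
    rintro hL1 p hp hp0 ho
    obtain ⟨he0, hks⟩ := hL1 ke List.mem_cons_self
    have hi := ih (fun x hx => hL1 x (List.mem_cons_of_mem _ hx))
    obtain ⟨a, g, hg, hpe⟩ := hp
    rw [List.map_cons, List.prod_cons] at ho ⊢
    let T : Option (Fin ke.1) → K := fun o => o.elim (-aeval y p)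
      (fun i => algebraMap F K (a i) * aeval y (g i) ^ ke.2)
    have hTm : ∀ j, T j ≠ 0 → Dv ke.2 (T j) := by
      intro j _
      cases j with
      | none => exact h.neg (h.dvd _ _ _ ho)
      | some i => exact h.mul _ _ _ (h.const _ _ (E.algebraMap_mem _)) (h.pow _ _)
    obtain ⟨i, hi0, hTi, hiW⟩ := other h he0 T hTm (by
        rw [Fintype.sum_option]
        change -aeval y p + ∑ i, algebraMap F K (a i) * aeval y (g i) ^ ke.2 = 0
        rw [← aeval_sum_pow, ← hpe, neg_add_cancel]) (by
        rw [Fintype.card_option, Fintype.card_fin]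
        exact hks) (j0 := none) (by
        change -aeval y p ≠ 0
        exact neg_ne_zero.2 hp0)
    cases i with
    | none => exact absurd rfl hi0
    | some i =>
      change algebraMap F K (a i) * aeval y (g i) ^ ke.2 ≠ 0 at hTi
      change algebraMap F K (a i) * aeval y (g i) ^ ke.2 / -aeval y p ∈ E at hiW
      obtain ⟨h1, h2⟩ := mul_pow_ne he0 hTi
      have h5 : aeval y (g i) ^ ke.2 =
          (-(algebraMap F K (a i) * aeval y (g i) ^ ke.2 / -aeval y p) * (algebraMap F K (a i))⁻¹)
            * aeval y p := by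
        field_simp
      have h6 : (-(algebraMap F K (a i) * aeval y (g i) ^ ke.2 / -aeval y p) *
          (algebraMap F K (a i))⁻¹) ∈ E := mul_mem (neg_mem hiW) (inv_mem (E.algebraMap_mem _))
      obtain ⟨l, hl, hl0, hlW⟩ := hi (g i) (hg i) h2 (h.down ke.2 _ _ he0 (by
        rw [h5]
        exact h.mul _ _ _ (h.const _ _ h6) ho))
      refine ⟨l, hl, hl0, ?_⟩
      have h7 : aeval y l ^ (ke.2 * (L.map Prod.snd).prod) / aeval y p =
          -((aeval y l ^ (L.map Prod.snd).prod / aeval y (g i)) ^ ke.2 *
            (algebraMap F K (a i) * aeval y (g i) ^ ke.2 / -aeval y p) *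
              (algebraMap F K (a i))⁻¹) := by
        rw [div_pow, ← pow_mul, mul_comm (L.map Prod.snd).prod]
        field_simp
      rw [h7]
      exact neg_mem (mul_mem (mul_mem (pow_mem hlW _) hiW) (inv_mem (E.algebraMap_mem _)))

/-- **Gates along the boundary.** -/
theorem gate_bd (h : DSys E Dv) (hE : Env E Lf y x) {l0 : MvPolynomial σ F} (hl0 : Lf l0)
    (hl0y : aeval y l0 ≠ 0) (L : List (ℕ × ℕ)) :
    (∀ ke ∈ L, 0 < ke.2 ∧ ke.1 ^ 2 ≤ ke.2) → GoodL L.tail → ∀ p, GateL Lf L p → aeval y p ≠ 0 →
        Dv (L.map Prod.snd).prod (aeval y p) →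
        aeval y l0 ^ (L.map Prod.snd).prod / aeval y p ∈ E →
        aeval x p = algebraMap K M (aeval y p / aeval y l0 ^ (L.map Prod.snd).prod) *
          aeval x l0 ^ (L.map Prod.snd).prod := by
  induction L with
  | nil =>
    intro _ _ p hp h1 _ h2
    simp only [List.map_nil, List.prod_nil, pow_one] at h2 ⊢
    have h3 := hE.p l0 p hl0 hp hl0y h1 h2
    have h4 : algebraMap K M (aeval y l0) * algebraMap K M (aeval y l0)⁻¹ = 1 := by
      rw [← map_mul, mul_inv_cancel₀ hl0y, map_one]
    rw [div_eq_mul_inv, map_mul]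
    linear_combination (-algebraMap K M (aeval y l0)⁻¹) * h3 - aeval x p * h4
  | cons ke L ih =>
    rintro hL1 hL p hp hp0 ho hpW
    rw [List.tail_cons] at hL
    obtain ⟨he0, hks⟩ := hL1 ke List.mem_cons_self
    have hi := ih (fun x hx => hL1 x (List.mem_cons_of_mem _ hx))
      (fun x hx => hL x (List.mem_of_mem_tail hx))
    obtain ⟨ihz, ihp⟩ := gate_rel h hE L hL
    obtain ⟨a, g, hg, hpe⟩ := hp
    rw [List.map_cons, List.prod_cons] at ho hpW ⊢
    set pr := (L.map Prod.snd).prod with hpr
    -- the terms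
    let T : Option (Fin ke.1) → K := fun o => o.elim (-aeval y p)
      (fun i => algebraMap F K (a i) * aeval y (g i) ^ ke.2)
    set X : M := algebraMap K M (aeval y p / aeval y l0 ^ (ke.2 * pr)) *
      aeval x l0 ^ (ke.2 * pr) with hX
    let T' : Option (Fin ke.1) → M := fun o => o.elim (-X)
      (fun i => algebraMap F M (a i) * aeval x (g i) ^ ke.2)
    have hTm : ∀ j, T j ≠ 0 → Dv ke.2 (T j) := by
      intro j _
      cases j with
      | none => exact h.neg (h.dvd _ _ _ ho)
      | some i => exact h.mul _ _ _ (h.const _ _ (E.algebraMap_mem _)) (h.pow _ _)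
    have hsmall : ∀ i : Fin ke.1, T (some i) ≠ 0 → T (some i) / aeval y p ∈ E →
          algebraMap K M (aeval y p) * T' (some i) = algebraMap K M (T (some i)) * X := by
      intro i hi0 hiD
      change algebraMap F K (a i) * aeval y (g i) ^ ke.2 ≠ 0 at hi0
      change algebraMap F K (a i) * aeval y (g i) ^ ke.2 / aeval y p ∈ E at hiD
      change algebraMap K M (aeval y p) * (algebraMap F M (a i) * aeval x (g i) ^ ke.2) =
        algebraMap K M (algebraMap F K (a i) * aeval y (g i) ^ ke.2) * X
      obtain ⟨h1, h2⟩ := mul_pow_ne he0 hi0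
      have h5 : aeval y (g i) ^ ke.2 =
          ((algebraMap F K (a i) * aeval y (g i) ^ ke.2 / aeval y p) * (algebraMap F K (a i))⁻¹)
            * aeval y p := by
        field_simp
      have h6 : ((algebraMap F K (a i) * aeval y (g i) ^ ke.2 / aeval y p) *
          (algebraMap F K (a i))⁻¹) ∈ E := mul_mem hiD (inv_mem (E.algebraMap_mem _))
      have h3 := hi (g i) (hg i) h2 (h.down ke.2 _ _ he0 (by
        rw [h5]
        exact h.mul _ _ _ (h.const _ _ h6) ho)) (by
        apply h.root _ ke.2 he0
        rw [div_pow, ← pow_mul, mul_comm pr]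
        have h4 : aeval y l0 ^ (ke.2 * pr) / aeval y (g i) ^ ke.2 =
            (aeval y l0 ^ (ke.2 * pr) / aeval y p) *
            (algebraMap F K (a i) * aeval y (g i) ^ ke.2 / aeval y p)⁻¹ *
              algebraMap F K (a i) := by
          field_simp
        rw [h4]
        exact mul_mem (mul_mem hpW (inv_mem hiD)) (E.algebraMap_mem _))
      rw [h3, mul_pow, ← map_pow, ← pow_mul, mul_comm pr, div_pow, ← pow_mul, mul_comm pr, hX,
        IsScalarTower.algebraMap_apply F K M]
      have h4 : algebraMap K M (aeval y p) * (algebraMap K M (algebraMap F K (a i)) *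
          algebraMap K M (aeval y (g i) ^ ke.2 / aeval y l0 ^ (ke.2 * pr))) =
          algebraMap K M (algebraMap F K (a i) * aeval y (g i) ^ ke.2) *
            algebraMap K M (aeval y p / aeval y l0 ^ (ke.2 * pr)) := by
        rw [← map_mul, ← map_mul, ← map_mul]
        congr 1
        field_simp
      linear_combination aeval x l0 ^ (ke.2 * pr) * h4
    have h1 : ∑ i, T' i = 0 := by
      refine step h he0 T T' hTm ?_ ?_ ?_ ?_
      · rw [Fintype.sum_option]
        change -aeval y p + ∑ i, algebraMap F K (a i) * aeval y (g i) ^ ke.2 = 0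
        rw [← aeval_sum_pow, ← hpe, neg_add_cancel]
      · rw [Fintype.card_option, Fintype.card_fin]
        exact hks
      · intro j hj
        cases j with
        | none =>
          change -aeval y p = 0 at hj
          exact absurd (neg_eq_zero.1 hj) hp0
        | some i =>
          change algebraMap F K (a i) * aeval y (g i) ^ ke.2 = 0 at hj
          change algebraMap F M (a i) * aeval x (g i) ^ ke.2 = 0
          rcases mul_eq_zero.1 hj with h | h
          · rw [IsScalarTower.algebraMap_apply F K M, h, map_zero, zero_mul]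
          · rw [ihz (g i) (hg i) (pow_eq_zero_iff he0.ne' |>.1 h), zero_pow he0.ne', mul_zero]
      · intro i j hi hj hij
        cases i with
        | none =>
          cases j with
          | none =>
            change -X * algebraMap K M (-aeval y p) = algebraMap K M (-aeval y p) * -X
            ring
          | some j =>
            have h2 := hsmall j hj (by
              change -aeval y p / T (some j) ∈ E at hij
              have h3 : T (some j) / aeval y p = -(-aeval y p / T (some j))⁻¹ := by
                rw [inv_div, div_neg, neg_neg]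
              rw [h3]
              exact neg_mem (inv_mem hij))
            change -X * algebraMap K M (T (some j)) = algebraMap K M (-aeval y p) * T' (some j)
            rw [map_neg]
            linear_combination h2
        | some i =>
          cases j with
          | none =>
            have h2 := hsmall i hi (by
              change T (some i) / -aeval y p ∈ E at hij
              have h3 : T (some i) / aeval y p = -(T (some i) / -aeval y p) := by
                rw [div_neg, neg_neg]
              rw [h3]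
              exact neg_mem hij)
            change T' (some i) * algebraMap K M (-aeval y p) = algebraMap K M (T (some i)) * -X
            rw [map_neg]
            linear_combination -h2
          | some j =>
            obtain ⟨h1, h2⟩ := mul_pow_ne he0 hi
            obtain ⟨h3, h4⟩ := mul_pow_ne he0 hj
            change algebraMap F K (a i) * aeval y (g i) ^ ke.2 /
              (algebraMap F K (a j) * aeval y (g j) ^ ke.2) ∈ E at hij
            have h5 := ihp (g i) (g j) (hg i) (hg j) h2 h4 (root_div h.root he0 (by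
              have h5 : aeval y (g i) ^ ke.2 / aeval y (g j) ^ ke.2 =
                  (algebraMap F K (a i) * aeval y (g i) ^ ke.2 /
                    (algebraMap F K (a j) * aeval y (g j) ^ ke.2)) * algebraMap F K (a j) *
                      (algebraMap F K (a i))⁻¹ := by
                field_simp
              rw [h5]
              exact mul_mem (mul_mem hij (E.algebraMap_mem _)) (inv_mem (E.algebraMap_mem _))))
            have h6 := pow_rel (κ := algebraMap F K (a i)) (κ' := algebraMap F K (a j))
              (e := ke.2) h5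
            rw [← IsScalarTower.algebraMap_apply, ← IsScalarTower.algebraMap_apply] at h6
            exact h6
    rw [Fintype.sum_option] at h1
    change -X + ∑ i, algebraMap F M (a i) * aeval x (g i) ^ ke.2 = 0 at h1
    rw [← aeval_sum_pow, ← hpe] at h1
    linear_combination h1

end spec

end Pool.Agent.TH710.NU
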